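import Pool.Agent.H531R2.D4.ShDefs

/-!
# Task J of the depth-4 project: expansion of logarithmic forms of products
-/

set_option autoImplicit false

namespace Pool.Agent.H531R2.D4

open Polynomial

section J
variable {K : Type} [Field K] [CharZero K] {σ : Type}

omit [CharZero K] in
/-- simultaneous factorisation into pairwise non-associated irreducible polynomials -/
theorem J_factor {r δ : ℕ} (T : Fin r → MvPolynomial σ K) (hT : ∀ j, T j ≠ 0)
    (hfac : ∀ j, ∀ g, Irreducible g → g ∣ T j → g.totalDegree ≤ δ) :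
    ∃ (𝒬 : Finset (MvPolynomial σ K)) (e : Fin r → MvPolynomial σ K → ℕ) (c : Fin r → K),
      Irr 𝒬 δ ∧ (∀ g ∈ 𝒬, ∃ j, g ∣ T j) ∧ (∀ j, c j ≠ 0) ∧
      ∀ j, T j = MvPolynomial.C (c j) * ∏ g ∈ 𝒬, g ^ e j g := by
  classical
  let _ : StrongNormalizationMonoid (MvPolynomial σ K) :=
    UniqueFactorizationMonoid.strongNormalizationMonoid
  let 𝒬 : Finset (MvPolynomial σ K) := Finset.univ.biUnion
    (fun j : Fin r => (UniqueFactorizationMonoid.normalizedFactors (T j)).toFinset)
  have h𝒬 : ∀ g ∈ 𝒬, ∃ j, g ∈ UniqueFactorizationMonoid.normalizedFactors (T j) := by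
    intro g hg
    obtain ⟨j, _, hj⟩ := Finset.mem_biUnion.1 hg
    exact ⟨j, Multiset.mem_toFinset.1 hj⟩
  have hex : ∀ j, ∃ c : K, c ≠ 0 ∧ T j = MvPolynomial.C c *
      ∏ g ∈ 𝒬, g ^ (UniqueFactorizationMonoid.normalizedFactors (T j)).count g := by
    intro j
    have h1 := UniqueFactorizationMonoid.prod_normalizedFactors (hT j)
    obtain ⟨u, hu⟩ := h1
    obtain ⟨c, hc, hcu⟩ := MvPolynomial.isUnit_iff_eq_C_of_isReduced.1 u.isUnit
    refine ⟨c, hc.ne_zero, ?_⟩
    rw [← Finset.prod_multiset_count_of_subset _ 𝒬 (Finset.subset_biUnion_of_mem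
      (fun j : Fin r => (UniqueFactorizationMonoid.normalizedFactors (T j)).toFinset)
      (Finset.mem_univ j)), ← hcu, mul_comm]
    exact hu.symm
  choose c hc hcT using hex
  refine ⟨𝒬, fun j g => (UniqueFactorizationMonoid.normalizedFactors (T j)).count g, c,
    ⟨?_, ?_, ?_⟩, ?_, hc, hcT⟩
  · intro p hp
    obtain ⟨j, hj⟩ := h𝒬 p hp
    exact UniqueFactorizationMonoid.irreducible_of_normalized_factor p hj
  · intro p hp q hq hpq
    obtain ⟨j, hj⟩ := h𝒬 p hp
    obtain ⟨j', hj'⟩ := h𝒬 q hq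
    exact hpq.eq_of_normalized (UniqueFactorizationMonoid.normalize_normalized_factor p hj)
      (UniqueFactorizationMonoid.normalize_normalized_factor q hj')
  · intro p hp
    obtain ⟨j, hj⟩ := h𝒬 p hp
    exact hfac j p (UniqueFactorizationMonoid.irreducible_of_normalized_factor p hj)
      (UniqueFactorizationMonoid.dvd_of_mem_normalizedFactors hj)
  · intro p hp
    obtain ⟨j, hj⟩ := h𝒬 p hp
    exact ⟨j, UniqueFactorizationMonoid.dvd_of_mem_normalizedFactors hj⟩

omit [CharZero K] in
theorem J_logder_pow {F : Type} [Field F] [Algebra K F] (d : Derivation K F F) {g : F}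
    (hg : g ≠ 0) (n : ℕ) : d (g ^ n) / g ^ n = (n : F) * (d g / g) := by
  induction n with
  | zero => simp
  | succ n ih =>
    rw [pow_succ, logder_mul d (pow_ne_zero n hg) hg, ih]
    push_cast
    ring

omit [CharZero K] in
theorem J_logder_prod {F α : Type} [Field F] [Algebra K F] (d : Derivation K F F)
    (s : Finset α) (g : α → F) (hg : ∀ a ∈ s, g a ≠ 0) (e : α → ℕ) :
    d (∏ a ∈ s, g a ^ e a) / ∏ a ∈ s, g a ^ e a = ∑ a ∈ s, (e a : F) * (d (g a) / g a) := by
  classical
  induction s using Finset.induction_on with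
  | empty => simp
  | insert a s ha ih =>
    have h1 : ∀ b ∈ s, g b ≠ 0 := fun b hb => hg b (Finset.mem_insert_of_mem hb)
    have h2 : g a ≠ 0 := hg a (Finset.mem_insert_self _ _)
    rw [Finset.prod_insert ha, Finset.sum_insert ha, logder_mul d (pow_ne_zero _ h2)
      (Finset.prod_ne_zero_iff.2 fun b hb => pow_ne_zero _ (h1 b hb)), ih h1,
      J_logder_pow d h2]

omit [CharZero K] in
theorem J_totalDegree_dD (v : σ → K) (p : MvPolynomial σ K) :
    (dD v p).totalDegree ≤ p.totalDegree := by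
  classical
  have h1 : dD v p = ∑ m ∈ p.support, MvPolynomial.C (MvPolynomial.coeff m p) *
      dD v (MvPolynomial.monomial m 1) := by
    conv_lhs => rw [p.as_sum]
    rw [map_sum]
    refine Finset.sum_congr rfl fun m _ => ?_
    have h2 : MvPolynomial.monomial m (MvPolynomial.coeff m p) =
        (MvPolynomial.coeff m p) • (MvPolynomial.monomial m (1 : K)) := by
      rw [MvPolynomial.smul_monomial, smul_eq_mul, mul_one]
    rw [h2, Derivation.map_smul, MvPolynomial.smul_eq_C_mul]
  rw [h1]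
  refine MvPolynomial.totalDegree_finsetSum_le fun m hm => ?_
  refine (MvPolynomial.totalDegree_mul _ _).trans ?_
  rw [MvPolynomial.totalDegree_C, zero_add]
  have h3 : dD v (MvPolynomial.monomial m (1 : K)) = m.sum fun i k =>
      MvPolynomial.monomial (m - Finsupp.single i 1) (k : K) * MvPolynomial.C (v i) := by
    rw [dD, MvPolynomial.mkDerivation_monomial]
    rw [one_smul]
    rfl
  rw [h3]
  refine MvPolynomial.totalDegree_finsetSum_le fun i hi => ?_
  refine (MvPolynomial.totalDegree_mul _ _).trans ?_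
  rw [MvPolynomial.totalDegree_C, add_zero]
  refine (MvPolynomial.totalDegree_monomial_le _ _).trans ?_
  refine le_trans ?_ (MvPolynomial.le_totalDegree hm)
  have h4 : ∀ n : σ →₀ ℕ, (n.sum fun _ => id) = n.degree := fun n => rfl
  have h5 : ∀ n : σ →₀ ℕ, (n.sum fun _ e => e) = n.degree := fun n => rfl
  rw [h4, h5]
  exact Finsupp.degree_mono tsub_le_self

omit [CharZero K] in
theorem J_totalDegree_det {r : ℕ} (M : Matrix (Fin r) (Fin r) (MvPolynomial σ K)) (δ : ℕ)
    (h : ∀ i j, (M i j).totalDegree ≤ δ) : M.det.totalDegree ≤ r * δ := by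
  classical
  rw [Matrix.det_apply']
  refine MvPolynomial.totalDegree_finsetSum_le fun τ _ => ?_
  refine (MvPolynomial.totalDegree_mul _ _).trans ?_
  have h1 : (((Equiv.Perm.sign τ : ℤ) : MvPolynomial σ K)).totalDegree = 0 := by
    have : ((Equiv.Perm.sign τ : ℤ) : MvPolynomial σ K) =
        MvPolynomial.C ((Equiv.Perm.sign τ : ℤ) : K) := by simp
    rw [this, MvPolynomial.totalDegree_C]
  rw [h1, zero_add]
  refine (MvPolynomial.totalDegree_finsetProd _ _).trans ?_
  refine (Finset.sum_le_sum fun i _ => h _ _).trans ?_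
  simp

/-- the logarithmic form of products of polynomials of degree `≤ δ` is a sum of bounded
logarithmic forms -/
theorem expand {r δ : ℕ} (T : Fin r → MvPolynomial σ K) (hT : ∀ j, T j ≠ 0)
    (hfac : ∀ j, ∀ g, Irreducible g → g ∣ T j → g.totalDegree ≤ δ) :
    ∃ (𝒬 : Finset (MvPolynomial σ K)) (ι : Type) (_ : Fintype ι)
      (H : ι → (Fin r → (σ → K)) → Rf σ K),
      Irr 𝒬 (r * δ + r + δ) ∧ (∀ g ∈ 𝒬, ∃ j, g ∣ T j) ∧ (∀ s, H s ∈ Lam pD r) ∧
      (∀ s v, Bdd 𝒬 (r * δ + r + δ) (H s v)) ∧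
      ∑ s, H s = lam pD (fun j => algebraMap _ (Rf σ K) (T j)) := by
  classical
  obtain ⟨𝒬, e, c, ⟨hI1, hI2, hI3⟩, hdvd, hc, hTe⟩ := J_factor T hT hfac
  have hinj : Function.Injective (algebraMap (MvPolynomial σ K) (Rf σ K)) :=
    IsFractionRing.injective _ _
  have hne : ∀ g : 𝒬, algebraMap (MvPolynomial σ K) (Rf σ K) g.1 ≠ 0 := fun g => by
    rw [Ne, map_eq_zero_iff _ hinj]
    exact (hI1 g.1 g.2).ne_zero
  let H : (Fin r → 𝒬) → (Fin r → (σ → K)) → Rf σ K := fun s =>
    ((∏ j, e j (s j).1 : ℕ) : K) • lam pD (fun j => algebraMap _ (Rf σ K) (s j).1)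
  refine ⟨𝒬, Fin r → 𝒬, inferInstance, H, ⟨hI1, hI2, fun p hp => (hI3 p hp).trans (by omega)⟩,
    hdvd, ?_, ?_, ?_⟩
  · intro s
    exact Submodule.smul_mem _ _ (lam_mem _ fun j => hne _)
  · intro s v
    refine ⟨Finset.univ.val.map (fun j => (s j).1), MvPolynomial.C ((∏ j, e j (s j).1 : ℕ) : K) *
      (Matrix.of fun i j => dD (v i) (s j).1).det, ?_, ?_, ?_, ?_⟩
    · intro g hg
      obtain ⟨j, _, rfl⟩ := Multiset.mem_map.1 hg
      exact (s j).2
    · simp
      nlinarith
    · refine (MvPolynomial.totalDegree_mul _ _).trans ?_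
      rw [MvPolynomial.totalDegree_C, zero_add]
      refine (J_totalDegree_det _ δ fun i j => ?_).trans (by omega)
      exact (J_totalDegree_dD _ _).trans (hI3 _ (s j).2)
    · change ((∏ j, e j (s j).1 : ℕ) : K) • lam pD (fun j => algebraMap _ (Rf σ K) (s j).1) v = _
      have h1 : lam pD (fun j => algebraMap _ (Rf σ K) (s j).1) v =
          (Matrix.of fun i j => (algebraMap _ (Rf σ K) (s j).1)⁻¹ *
            (Matrix.of fun i j => algebraMap _ (Rf σ K) (dD (v i) (s j).1)) i j).det := by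
        rw [lam]
        congr 1
        ext i j
        rw [Matrix.of_apply, Matrix.of_apply, Matrix.of_apply, pD_algebraMap, div_eq_inv_mul]
      rw [h1, Matrix.det_mul_row, Algebra.smul_def]
      have h2 : (Matrix.of fun i j => algebraMap _ (Rf σ K) (dD (v i) (s j).1)).det =
          algebraMap _ (Rf σ K) (Matrix.of fun i j => dD (v i) (s j).1).det := by
        rw [RingHom.map_det]
        rfl
      rw [h2, map_mul, Finset.prod_inv_distrib, ← MvPolynomial.algebraMap_eq,
        ← IsScalarTower.algebraMap_apply]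
      have h3 : (Multiset.map (fun j => (s j).1) Finset.univ.val).prod = ∏ j, (s j).1 := rfl
      rw [h3, map_prod]
      field_simp
  · funext v
    rw [Finset.sum_apply]
    have h1 : lam pD (fun j => algebraMap _ (Rf σ K) (T j)) v =
        Matrix.detRowAlternating (fun j : Fin r => ∑ g : 𝒬, (fun i : Fin r =>
          (e j g.1 : Rf σ K) * (pD (v i) (algebraMap _ (Rf σ K) g.1) /
            algebraMap _ (Rf σ K) g.1))) := by
      rw [lam, ← Matrix.det_transpose]
      change Matrix.det _ = Matrix.det _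
      congr 1
      ext j i
      rw [Matrix.transpose_apply, Matrix.of_apply, Finset.sum_apply, hTe j]
      have h2 : algebraMap (MvPolynomial σ K) (Rf σ K) (MvPolynomial.C (c j) *
          ∏ g ∈ 𝒬, g ^ e j g) = algebraMap K (Rf σ K) (c j) *
          ∏ g : 𝒬, (algebraMap _ (Rf σ K) g.1) ^ e j g.1 := by
        rw [map_mul, map_prod, ← MvPolynomial.algebraMap_eq, ← IsScalarTower.algebraMap_apply,
          ← Finset.prod_coe_sort]
        simp only [map_pow]
      have h3 : algebraMap K (Rf σ K) (c j) ≠ 0 := by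
        rw [Ne, map_eq_zero]
        exact hc j
      rw [h2, logder_mul _ h3 (Finset.prod_ne_zero_iff.2 fun g _ => pow_ne_zero _ (hne g)),
        Derivation.map_algebraMap, zero_div, zero_add,
        J_logder_prod _ _ _ (fun g _ => hne g)]
    rw [h1]
    have h4 := (Matrix.detRowAlternating (R := Rf σ K) (n := Fin r)).toMultilinearMap.map_sum
      (fun (j : Fin r) (g : 𝒬) (i : Fin r) => (e j g.1 : Rf σ K) *
        (pD (v i) (algebraMap _ (Rf σ K) g.1) / algebraMap _ (Rf σ K) g.1))
    refine Eq.trans ?_ h4.symm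
    refine Finset.sum_congr rfl fun s _ => ?_
    change ((∏ j, e j (s j).1 : ℕ) : K) • lam pD (fun j => algebraMap _ (Rf σ K) (s j).1) v =
      Matrix.det (Matrix.of fun (j i : Fin r) => (e j (s j).1 : Rf σ K) *
        (Matrix.of fun (j i : Fin r) => (pD (v i) (algebraMap _ (Rf σ K) (s j).1) /
          algebraMap _ (Rf σ K) (s j).1)) j i)
    rw [Matrix.det_mul_column, Algebra.smul_def, lam, ← Matrix.det_transpose]
    congr 1
    push_cast
    rfl

end J

end Pool.Agent.H531R2.D4
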