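import Pool.Agent.H621R2.Lvl2
import Pool.Agent.H671R2.PolyAuto

/-!
The hypergraphs produced by the reduction are linear, of rank at most three; the reduction is
computable in polynomial time.
-/

set_option autoImplicit false

namespace Pool.Agent.H621R2

open Pool.Agent.NPC Pool.Agent.NPC.ER

/-- The abstract Pappus gadget. -/
def absGad : List (List (Fin 9)) :=
  [[0, 1, 2], [3, 4, 5], [0, 4, 6], [3, 1, 6], [0, 5, 7], [3, 2, 7], [1, 5, 8], [4, 2, 8]]

theorem absGad_lin : ∀ a ∈ absGad, ∀ b ∈ absGad, a.toFinset ≠ b.toFinset →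
    (a.toFinset ∩ b.toFinset).card ≤ 1 := by decide

theorem absGad_card : ∀ a ∈ absGad, a.toFinset.card = 3 := by decide

/-- The names of the vertices of a gadget. -/
def gmap (x y z : ℕ) (ν : Fin 6 → ℕ) : Fin 9 → ℕ := ![ν 0, ν 1, ν 2, ν 3, ν 4, ν 5, x, y, z]

theorem gad_eq (x y z : ℕ) (ν : Fin 6 → ℕ) : gad x y z ν = absGad.map (List.map (gmap x y z ν)) := by
  rfl

theorem gmap_inj {x y z k : ℕ} (hxy : x ≠ y) (hxz : x ≠ z) (hyz : y ≠ z) :
    Function.Injective (gmap (2 * x) (2 * y) (2 * z) (fr k)) := by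
  intro i j hij
  fin_cases i <;> fin_cases j <;> first | rfl | skip
  all_goals exfalso
  all_goals simp [gmap, fr] at hij
  all_goals omega

theorem image_gmap (φ : Fin 9 → ℕ) (a : List (Fin 9)) :
    (a.map φ).toFinset = a.toFinset.image φ := by
  ext v; simp

theorem mem_gad {x y z k : ℕ} {e : List ℕ} (he : e ∈ gad (2 * x) (2 * y) (2 * z) (fr k)) :
    ∃ a ∈ absGad, e.toFinset = a.toFinset.image (gmap (2 * x) (2 * y) (2 * z) (fr k)) := by
  rw [gad_eq, List.mem_map] at he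
  obtain ⟨a, ha, rfl⟩ := he
  exact ⟨a, ha, image_gmap _ _⟩

theorem gad_card {x y z k : ℕ} (hxy : x ≠ y) (hxz : x ≠ z) (hyz : y ≠ z) {e : List ℕ}
    (he : e ∈ gad (2 * x) (2 * y) (2 * z) (fr k)) : e.toFinset.card = 3 := by
  obtain ⟨a, ha, he⟩ := mem_gad he
  rw [he, Finset.card_image_of_injective _ (gmap_inj hxy hxz hyz)]
  exact absGad_card a ha

theorem gad_lin {x y z k : ℕ} (hxy : x ≠ y) (hxz : x ≠ z) (hyz : y ≠ z) {e f : List ℕ}
    (he : e ∈ gad (2 * x) (2 * y) (2 * z) (fr k)) (hf : f ∈ gad (2 * x) (2 * y) (2 * z) (fr k))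
    (hne : e.toFinset ≠ f.toFinset) : (e.toFinset ∩ f.toFinset).card ≤ 1 := by
  obtain ⟨a, ha, he⟩ := mem_gad he
  obtain ⟨b, hb, hf⟩ := mem_gad hf
  rw [he, hf] at hne
  rw [he, hf, ← Finset.image_inter _ _ (gmap_inj hxy hxz hyz)]
  refine Finset.card_image_le.trans (absGad_lin a ha b hb ?_)
  intro h
  exact hne (by rw [h])

/-- every gadget hyperedge has at most one even vertex -/
theorem gad_even {x y z k : ℕ} {e : List ℕ} (he : e ∈ gad (2 * x) (2 * y) (2 * z) (fr k)) :
    ∃ w, ∀ v ∈ e, v % 2 = 0 → v = w := by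
  have ho : ∀ i, fr k i % 2 ≠ 0 := by intro i; simp only [fr]; omega
  simp only [gad, List.mem_cons, List.not_mem_nil, or_false] at he
  rcases he with rfl | rfl | rfl | rfl | rfl | rfl | rfl | rfl
  · refine ⟨0, fun v hv h0 => ?_⟩
    simp only [List.mem_cons, List.not_mem_nil, or_false] at hv
    rcases hv with rfl | rfl | rfl <;> exact absurd h0 (ho _)
  · refine ⟨0, fun v hv h0 => ?_⟩
    simp only [List.mem_cons, List.not_mem_nil, or_false] at hv
    rcases hv with rfl | rfl | rfl <;> exact absurd h0 (ho _)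
  all_goals
    first
    | (refine ⟨2 * x, fun v hv h0 => ?_⟩
       simp only [List.mem_cons, List.not_mem_nil, or_false] at hv
       rcases hv with rfl | rfl | rfl <;> first | rfl | exact absurd h0 (ho _))
    | (refine ⟨2 * y, fun v hv h0 => ?_⟩
       simp only [List.mem_cons, List.not_mem_nil, or_false] at hv
       rcases hv with rfl | rfl | rfl <;> first | rfl | exact absurd h0 (ho _))
    | (refine ⟨2 * z, fun v hv h0 => ?_⟩
       simp only [List.mem_cons, List.not_mem_nil, or_false] at hv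
       rcases hv with rfl | rfl | rfl <;> first | rfl | exact absurd h0 (ho _))

/-- every odd vertex of a gadget hyperedge is a fresh name -/
theorem gad_odd {x y z k : ℕ} {e : List ℕ} (he : e ∈ gad (2 * x) (2 * y) (2 * z) (fr k)) {v : ℕ}
    (hv : v ∈ e) (h1 : v % 2 ≠ 0) : ∃ i, v = fr k i := by
  simp only [gad, List.mem_cons, List.not_mem_nil, or_false] at he
  rcases he with rfl | rfl | rfl | rfl | rfl | rfl | rfl | rfl <;>
    simp only [List.mem_cons, List.not_mem_nil, or_false] at hv <;>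
    rcases hv with rfl | rfl | rfl <;> first | exact ⟨_, rfl⟩ | omega

theorem card_le_one_of {s : Finset ℕ} {w : ℕ} (h : ∀ v ∈ s, v = w) : s.card ≤ 1 :=
  Finset.card_le_one.2 (fun a ha b hb => (h a ha).trans (h b hb).symm)

theorem small_inter {s t : Finset ℕ} (hs : s.card ≤ 2) (ht : t.card ≤ 2) (h : s ≠ t) :
    (s ∩ t).card ≤ 1 := by
  by_contra hlt
  apply h
  have h1 : s ∩ t = s := Finset.eq_of_subset_of_card_le Finset.inter_subset_left (by omega)
  have h2 : s ∩ t = t := Finset.eq_of_subset_of_card_le Finset.inter_subset_right (by omega)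
  rw [← h1]
  exact h2

theorem hyp_card {P : List (ℕ × ℕ)} {T : List (ℕ × ℕ × ℕ)} (hP : ∀ u ∈ P, u.1 ≠ u.2)
    (hT : ∀ u ∈ T, u.1 ≠ u.2.1 ∧ u.1 ≠ u.2.2 ∧ u.2.1 ≠ u.2.2) {e : List ℕ} (he : e ∈ hyp P T) :
    2 ≤ e.toFinset.card ∧ e.toFinset.card ≤ 3 := by
  rw [hyp, List.mem_append, List.mem_map, mem_gads_iff] at he
  rcases he with ⟨u, hu, rfl⟩ | ⟨q, hq, he⟩
  · have h := hP u hu
    have : ([2 * u.1, 2 * u.2] : List ℕ).toFinset.card = 2 := by
      rw [List.toFinset_card_of_nodup]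
      · rfl
      · simp; omega
    omega
  · have hu : q.1 ∈ T := by
      have := List.mem_zipIdx hq
      rw [this.2.2]
      exact List.getElem_mem _
    obtain ⟨a, b, c⟩ := hT _ hu
    have := gad_card a b c he
    omega

theorem hyp_lin {P : List (ℕ × ℕ)} {T : List (ℕ × ℕ × ℕ)}
    (hT : ∀ u ∈ T, u.1 ≠ u.2.1 ∧ u.1 ≠ u.2.2 ∧ u.2.1 ≠ u.2.2) {e f : List ℕ} (he : e ∈ hyp P T)
    (hf : f ∈ hyp P T) (hne : e.toFinset ≠ f.toFinset) : (e.toFinset ∩ f.toFinset).card ≤ 1 := by
  have hmem : ∀ {q : (ℕ × ℕ × ℕ) × ℕ}, q ∈ T.zipIdx 0 → q.1 ∈ T := by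
    intro q hq
    have := List.mem_zipIdx hq
    rw [this.2.2]
    exact List.getElem_mem _
  rw [hyp, List.mem_append, List.mem_map, mem_gads_iff] at he hf
  rcases he with ⟨u, hu, rfl⟩ | ⟨q, hq, he⟩ <;> rcases hf with ⟨v, hv, rfl⟩ | ⟨r, hr, hf⟩
  · refine small_inter ?_ ?_ hne
    · exact (List.toFinset_card_le _).trans (by simp)
    · exact (List.toFinset_card_le _).trans (by simp)
  · obtain ⟨w, hw⟩ := gad_even hf
    apply card_le_one_of (w := w)
    intro x hx
    rw [Finset.mem_inter, List.mem_toFinset, List.mem_toFinset] at hx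
    refine hw x hx.2 ?_
    have := hx.1
    simp only [List.mem_cons, List.not_mem_nil, or_false] at this
    omega
  · obtain ⟨w, hw⟩ := gad_even he
    apply card_le_one_of (w := w)
    intro x hx
    rw [Finset.mem_inter, List.mem_toFinset, List.mem_toFinset] at hx
    refine hw x hx.1 ?_
    have := hx.2
    simp only [List.mem_cons, List.not_mem_nil, or_false] at this
    omega
  · by_cases hqr : q.2 = r.2
    · have : q = r := by
        have h1 := List.mem_zipIdx hq
        have h2 := List.mem_zipIdx hr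
        ext1
        · rw [h1.2.2, h2.2.2]
          simp only [hqr]
        · exact hqr
      subst this
      obtain ⟨a, b, c⟩ := hT _ (hmem hq)
      exact gad_lin a b c he hf hne
    · obtain ⟨w, hw⟩ := gad_even he
      apply card_le_one_of (w := w)
      intro x hx
      rw [Finset.mem_inter, List.mem_toFinset, List.mem_toFinset] at hx
      refine hw x hx.1 ?_
      by_contra h1
      obtain ⟨i, hi⟩ := gad_odd he hx.1 h1
      obtain ⟨j, hj⟩ := gad_odd hf hx.2 h1
      exact hqr (fr_inj (hi.symm.trans hj)).1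

section poly

variable {α : Type} [TEnc α]

theorem poly_fn {k : α → ℕ} (hk : Poly k) (j : ℕ) : Poly (fun a => fn (k a) j) := by
  unfold fn; fun_prop

theorem poly_nv {k : α → ℕ} (hk : Poly k) : Poly (fun a => nv (k a)) := by
  unfold nv; fun_prop

theorem poly_pn {k : α → ℕ} (hk : Poly k) (j : ℕ) : Poly (fun a => pn (k a) j) := by
  unfold pn; fun_prop

theorem poly_fr {k : α → ℕ} (hk : Poly k) (j : Fin 6) : Poly (fun a => fr (k a) j) := by
  unfold fr; fun_prop

theorem poly_quint {e a b c d : α → ℕ} (he : Poly e) (ha : Poly a) (hb : Poly b) (hc : Poly c)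
    (hd : Poly d) : Poly (fun x => (((e x), (a x), (b x), (c x), (d x)) : Gt)) :=
  he.pair (ha.pair (hb.pair (hc.pair hd)))

theorem poly_conG {c : α → ℕ × ℕ × ℕ × ℕ} {k : α → ℕ} (hc : Poly c) (hk : Poly k) :
    Poly (fun a => conG (c a) (k a)) := by
  have h0 : Poly (fun a => (c a).1) := hc.fst
  have h1 : Poly (fun a => nv (c a).2.1) := poly_nv hc.snd.fst
  have h2 : Poly (fun a => nv (c a).2.2.1) := poly_nv hc.snd.snd.fst
  have h3 : Poly (fun a => nv (c a).2.2.2) := poly_nv hc.snd.snd.snd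
  have f := fun j => poly_fn hk j
  have cst := fun n : ℕ => (NPC.Poly.const n : Poly (fun _ : α => n))
  unfold conG
  refine Poly.ite (Poly.decide_eq h0 (cst 0)) ?_ (Poly.ite (Poly.decide_eq h0 (cst 1)) ?_ ?_)
  · exact Poly.cons (poly_quint (cst 1) (f 0) (f 1) (cst 0) (cst 2))
      (Poly.cons (poly_quint (cst 1) h1 (cst 0) (f 0) (f 1)) (NPC.Poly.const []))
  · exact Poly.cons (poly_quint (cst 1) (f 0) (f 1) (cst 0) h3)
      (Poly.cons (poly_quint (cst 1) h1 h2 (f 0) (f 1)) (NPC.Poly.const []))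
  · exact Poly.cons (poly_quint (cst 1) (f 0) (cst 2) (cst 0) (f 1))
      (Poly.cons (poly_quint (cst 1) h1 h2 (f 1) (f 3))
      (Poly.cons (poly_quint (f 0) h1 h2 (f 2) (f 1))
      (Poly.cons (poly_quint (cst 0) (f 0) (f 3) (cst 2) (f 4))
      (Poly.cons (poly_quint (cst 1) (f 2) (f 4) (cst 0) h3) (NPC.Poly.const [])))))

theorem poly_gatesOf {S : α → List Con} (hS : Poly S) : Poly (fun a => gatesOf (S a)) := by
  unfold gatesOf
  refine Poly.flatMap (F := fun (_ : α) (q : Con × ℕ) => conG q.1.code q.2) (Poly.zipIdx hS) ?_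
  exact poly_conG (poly_con_code (Poly.fst (Poly.snd Poly.id))) (Poly.snd (Poly.snd Poly.id))

theorem poly_trp {e a b : α → ℕ} (he : Poly e) (ha : Poly a) (hb : Poly b) :
    Poly (fun x => (e x, a x, b x)) :=
  he.pair (ha.pair hb)

theorem poly_gateT {g : α → Gt} {k : α → ℕ} (hg : Poly g) (hk : Poly k) :
    Poly (fun a => gateT (g a) (k a)) := by
  have dbl : ∀ {n : α → ℕ}, Poly n → Poly (fun a => 2 * n a) := fun hn =>
    Poly.mul (NPC.Poly.const 2) hn
  have he : Poly (fun a => (g a).1) := hg.fst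
  have ha : Poly (fun a => 2 * (g a).2.1) := dbl hg.snd.fst
  have hb : Poly (fun a => 2 * (g a).2.2.1) := dbl hg.snd.snd.fst
  have hc : Poly (fun a => 2 * (g a).2.2.2.1) := dbl hg.snd.snd.snd.fst
  have hd : Poly (fun a => 2 * (g a).2.2.2.2) := dbl hg.snd.snd.snd.snd
  have p := fun j => poly_pn hk j
  have cst := fun n : ℕ => (NPC.Poly.const n : Poly (fun _ : α => n))
  unfold gateT
  refine Poly.append ?_ (Poly.ite (Poly.decide_eq he (cst 1)) ?_ ?_)
  · exact Poly.cons (poly_trp (cst 1) (cst 2) (p 0)) (Poly.cons (poly_trp (cst 1) hc (p 1))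
      (Poly.cons (poly_trp (cst 1) ha (p 2)) (Poly.cons (poly_trp (cst 1) (cst 2) (p 3))
      (Poly.cons (poly_trp (cst 1) hb (p 4)) (Poly.cons (poly_trp (cst 1) hd (p 5))
      (Poly.cons (poly_trp (p 1) (p 2) (p 0)) (Poly.cons (poly_trp (p 1) (p 4) (p 3))
      (Poly.cons (poly_trp (p 2) (p 5) (p 3)) (NPC.Poly.const [])))))))))
  · exact Poly.cons (poly_trp (p 4) (p 5) (p 0)) (NPC.Poly.const [])
  · exact Poly.cons (poly_trp (cst 1) (dbl he) (p 6)) (Poly.cons (poly_trp (p 1) (p 6) (p 0))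
      (Poly.cons (poly_trp (p 6) (p 4) (p 5)) (NPC.Poly.const [])))

theorem poly_trip {G : α → List Gt} (hG : Poly G) : Poly (fun a => trip (G a)) := by
  unfold trip
  refine Poly.cons (NPC.Poly.const _) ?_
  refine Poly.flatMap (F := fun (_ : α) (q : Gt × ℕ) => gateT q.1 q.2) (Poly.zipIdx hG) ?_
  exact poly_gateT (Poly.fst (Poly.snd Poly.id)) (Poly.snd (Poly.snd Poly.id))

theorem poly_l3 {e a b : α → ℕ} (he : Poly e) (ha : Poly a) (hb : Poly b) :
    Poly (fun x => [e x, a x, b x]) :=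
  he.cons (ha.cons (hb.cons (NPC.Poly.const [])))

theorem poly_gad {x y z k : α → ℕ} (hx : Poly x) (hy : Poly y) (hz : Poly z) (hk : Poly k) :
    Poly (fun a => gad (x a) (y a) (z a) (fr (k a))) := by
  have p := fun j => poly_fr hk j
  unfold gad
  exact Poly.cons (poly_l3 (p 0) (p 1) (p 2)) (Poly.cons (poly_l3 (p 3) (p 4) (p 5))
    (Poly.cons (poly_l3 (p 0) (p 4) hx) (Poly.cons (poly_l3 (p 3) (p 1) hx)
    (Poly.cons (poly_l3 (p 0) (p 5) hy) (Poly.cons (poly_l3 (p 3) (p 2) hy)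
    (Poly.cons (poly_l3 (p 1) (p 5) hz) (Poly.cons (poly_l3 (p 4) (p 2) hz) (NPC.Poly.const []))))))))

theorem poly_edgesOf {S : α → List Con} (hS : Poly S) : Poly (fun a => edgesOf (S a)) := by
  unfold edgesOf hyp gads
  refine Poly.append (NPC.Poly.const _) ?_
  refine Poly.flatMap (F := fun (_ : α) (q : (ℕ × ℕ × ℕ) × ℕ) =>
    gad (2 * q.1.1) (2 * q.1.2.1) (2 * q.1.2.2) (fr q.2)) (Poly.zipIdx (poly_trip (poly_gatesOf hS)))
    ?_
  have h : Poly (fun p : α × (ℕ × ℕ × ℕ) × ℕ => p.2) := Poly.snd Poly.id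
  exact poly_gad (Poly.mul (NPC.Poly.const 2) h.fst.fst) (Poly.mul (NPC.Poly.const 2) h.fst.snd.fst)
    (Poly.mul (NPC.Poly.const 2) h.fst.snd.snd) h.snd

end poly

end Pool.Agent.H621R2
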