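import Pool.Agent.H621R2.Geom

set_option autoImplicit false

namespace Pool.Agent.H621R2

theorem onL_trans {A B P Q R : Pt} (hAB : A ≠ B) (hP : Col A B P) (hQ : Col A B Q) (hPQ : P ≠ Q)
    (h : Col P Q R) : Col A B R := by
  obtain ⟨p, rfl⟩ := exists_param_of_col hAB hP
  obtain ⟨q, rfl⟩ := exists_param_of_col hAB hQ
  obtain ⟨r, rfl⟩ := exists_param_of_col hPQ h
  simp only [Col, cr, Prod.fst_sub, Prod.snd_sub, Prod.fst_add, Prod.snd_add, Prod.smul_fst,
      Prod.smul_snd, smul_eq_mul]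
  ring

theorem col_of_onL {A B P Q R : Pt} (hAB : A ≠ B) (hP : Col A B P) (hQ : Col A B Q)
    (hR : Col A B R) : Col P Q R := by
  obtain ⟨p, rfl⟩ := exists_param_of_col hAB hP
  obtain ⟨q, rfl⟩ := exists_param_of_col hAB hQ
  obtain ⟨r, rfl⟩ := exists_param_of_col hAB hR
  simp only [Col, cr, Prod.fst_sub, Prod.snd_sub, Prod.fst_add, Prod.snd_add, Prod.smul_fst,
      Prod.smul_snd, smul_eq_mul]
  ring

theorem Col.rot {P Q R : Pt} (h : Col P Q R) : Col Q R P := by
  simp only [Col, cr, Prod.fst_sub, Prod.snd_sub] at h ⊢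
  linarith

theorem Col.swap {P Q R : Pt} (h : Col P Q R) : Col Q P R := by
  simp only [Col, cr, Prod.fst_sub, Prod.snd_sub] at h ⊢
  linarith

theorem col_left (P Q : Pt) : Col P Q P := by simp [Col, cr]

theorem col_right (P Q : Pt) : Col P Q Q := by simp [Col, cr]; ring

/-- Coordinates with respect to two independent vectors. -/
theorem exists_coord {A d g : Pt} (h : cr d g ≠ 0) (P : Pt) :
    ∃ α β : ℝ, P = A + α • d + β • g := by
  obtain ⟨K, hK⟩ : ∃ K, K = cr d g := ⟨_, rfl⟩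
  rw [← hK] at h
  refine ⟨cr (P - A) g / K, cr d (P - A) / K, ?_⟩
  ext
  · simp only [cr, Prod.fst_sub, Prod.snd_sub, Prod.fst_add, Prod.smul_fst, smul_eq_mul]
    field_simp
    rw [hK, cr]
    ring
  · simp only [cr, Prod.fst_sub, Prod.snd_sub, Prod.snd_add, Prod.smul_snd, smul_eq_mul]
    field_simp
    rw [hK, cr]
    ring

theorem pappus_alg (s b1 b2 c1 c2 t x y z : ℝ) (hc1 : c1 = t * b1) (hc2 : c2 = 1 + t * (b2 - 1))
    (E1 : x * (b1 + b2) = 1) (E2 : y * (c1 + s * c2) = s)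
    (E3 : z * ((s - b1) * c2 + b2 * (c1 - 1)) = b2 * (s - 1))
    (n1 : b1 + b2 ≠ 0) (n2 : c1 + s * c2 ≠ 0) (n3 : (s - b1) * c2 + b2 * (c1 - 1) ≠ 0) :
    (y * c1 - x * b1) * (z * c2 - x * b2) - (y * c2 - x * b2) * (1 + z * (c1 - 1) - x * b1) = 0 := by
  obtain ⟨D1, h1⟩ : ∃ D, D = b1 + b2 := ⟨_, rfl⟩
  obtain ⟨D2, h2⟩ : ∃ D, D = c1 + s * c2 := ⟨_, rfl⟩
  obtain ⟨D3, h3⟩ : ∃ D, D = (s - b1) * c2 + b2 * (c1 - 1) := ⟨_, rfl⟩
  rw [← h1] at n1 E1
  rw [← h2] at n2 E2
  rw [← h3] at n3 E3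
  have hx' : x = 1 / D1 := by field_simp; linarith
  have hy' : y = s / D2 := by field_simp; linarith
  have hz' : z = b2 * (s - 1) / D3 := by field_simp; linarith
  rw [hx', hy', hz']
  field_simp
  rw [h1, h2, h3, hc1, hc2]
  ring

/-- Pappus's theorem, in a form that is valid in all degenerate positions as long as the points are
distinct. -/
theorem pappus {A B C a b c X Y Z : Pt} (hABC : Col A B C) (habc : Col a b c) (h1 : Col A b X)
    (h2 : Col a B X) (h3 : Col A c Y) (h4 : Col a C Y) (h5 : Col B c Z) (h6 : Col b C Z)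
    (nAB : A ≠ B) (nAC : A ≠ C) (nBC : B ≠ C) (nab : a ≠ b) (nac : a ≠ c) (nbc : b ≠ c)
    (nAb : A ≠ b) (naB : a ≠ B) (nAc : A ≠ c) (naC : a ≠ C) (nBc : B ≠ c) (nbC : b ≠ C)
    (nXA : X ≠ A) (nXB : X ≠ B) :
    Col X Y Z := by
  by_cases hD : cr (B - A) (a - A) = 0
  · have ha : Col A B a := hD
    have hX : Col A B X := onL_trans nAB ha (col_right A B) naB h2
    have hY : Col A B Y := onL_trans nAB ha hABC naC h4
    have hb : Col A B b := onL_trans nAB (col_left A B) hX nXA.symm (by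
      have := h1.rot.rot
      exact this.swap)
    have hc : Col A B c := onL_trans nAB ha hb nab habc
    have hZ : Col A B Z := onL_trans nAB (col_right A B) hc nBc h5
    exact col_of_onL nAB hX hY hZ
  · obtain ⟨s, hs⟩ := exists_param_of_col nAB hABC
    obtain ⟨b1, b2, hb⟩ := exists_coord (A := A) hD b
    obtain ⟨t, ht⟩ := exists_param_of_col nab habc
    obtain ⟨x, hx⟩ := exists_param_of_col nAb h1
    obtain ⟨y, hy⟩ := exists_param_of_col nAc h3
    obtain ⟨z, hz⟩ := exists_param_of_col nBc h5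
    set d := B - A with hd
    set g := a - A with hg
    have eA : A = A + (0 : ℝ) • d + (0 : ℝ) • g := by simp
    have eB : B = A + (1 : ℝ) • d + (0 : ℝ) • g := by simp [hd]
    have ea : a = A + (0 : ℝ) • d + (1 : ℝ) • g := by simp [hg]
    have eC : C = A + s • d + (0 : ℝ) • g := by rw [hs]; simp
    have ec : c = A + (t * b1) • d + (1 + t * (b2 - 1)) • g := by
      rw [ht, hb]
      ext <;> simp only [hd, hg, Prod.fst_sub, Prod.snd_sub, Prod.fst_add, Prod.snd_add,
        Prod.smul_fst, Prod.smul_snd, smul_eq_mul] <;> ring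
    have eX : X = A + (x * b1) • d + (x * b2) • g := by
      rw [hx, hb]
      ext <;> simp only [hd, hg, Prod.fst_sub, Prod.snd_sub, Prod.fst_add, Prod.snd_add,
        Prod.smul_fst, Prod.smul_snd, smul_eq_mul] <;> ring
    have eY : Y = A + (y * (t * b1)) • d + (y * (1 + t * (b2 - 1))) • g := by
      rw [hy, ec]
      ext <;> simp only [hd, hg, Prod.fst_sub, Prod.snd_sub, Prod.fst_add, Prod.snd_add,
        Prod.smul_fst, Prod.smul_snd, smul_eq_mul] <;> ring
    have eZ : Z = A + (1 + z * (t * b1 - 1)) • d + (z * (1 + t * (b2 - 1))) • g := by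
      rw [hz, ec]
      ext <;> simp only [hd, hg, Prod.fst_sub, Prod.snd_sub, Prod.fst_add, Prod.snd_add,
        Prod.smul_fst, Prod.smul_snd, smul_eq_mul] <;> ring
    have hs0 : s ≠ 0 := by
      rintro rfl; apply nAC; rw [eC]; simp
    have hs1 : s ≠ 1 := by
      rintro rfl; apply nBC; rw [eC]; simp [hd]
    rw [ea, eB, eX, col_coord hD] at h2
    rw [ea, eC, eY, col_coord hD] at h4
    rw [hb, eC, eZ, col_coord hD] at h6
    have E1 : x * (b1 + b2) = 1 := by linarith
    have E2 : y * (t * b1 + s * (1 + t * (b2 - 1))) = s := by linarith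
    have E3 : z * ((s - b1) * (1 + t * (b2 - 1)) + b2 * (t * b1 - 1)) = b2 * (s - 1) := by linarith
    have hb2 : b2 ≠ 0 := by
      rintro rfl
      apply nXB
      rw [eX, eB]
      have : x * b1 = 1 := by linarith
      rw [this]; simp
    have n1 : b1 + b2 ≠ 0 := by
      intro h; rw [h] at E1; simp at E1
    have n2 : t * b1 + s * (1 + t * (b2 - 1)) ≠ 0 := by
      intro h; rw [h] at E2; simp at E2; exact hs0 E2.symm
    have n3 : (s - b1) * (1 + t * (b2 - 1)) + b2 * (t * b1 - 1) ≠ 0 := by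
      intro h; rw [h] at E3
      have : b2 * (s - 1) = 0 := by linarith
      rcases mul_eq_zero.1 this with h | h
      · exact hb2 h
      · exact hs1 (by linarith)
    rw [eX, eY, eZ, col_coord hD]
    exact pappus_alg s b1 b2 _ _ t x y z rfl rfl E1 E2 E3 n1 n2 n3

end Pool.Agent.H621R2
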