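import Pool.Agent.H621R2.Pappus

set_option autoImplicit false

namespace Pool.Agent.H621R2

/-- `p` places the vertices `V` injectively, and every hyperedge of `E` is represented by a segment
containing exactly its vertices. -/
def Realizes (V : Set ℕ) (E : List (List ℕ)) (p : ℕ → Pt) : Prop :=
  Set.InjOn p V ∧ ∀ e ∈ E, ∃ a b : Pt, ∀ v ∈ V, p v ∈ segment ℝ a b ↔ v ∈ e

/-- The Pappus gadget: eight hyperedges of size three on `x`, `y`, `z` and six new vertices. -/
def gad (x y z : ℕ) (ν : Fin 6 → ℕ) : List (List ℕ) :=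
  [[ν 0, ν 1, ν 2], [ν 3, ν 4, ν 5], [ν 0, ν 4, x], [ν 3, ν 1, x], [ν 0, ν 5, y], [ν 3, ν 2, y],
    [ν 1, ν 5, z], [ν 4, ν 2, z]]

theorem col_of_edge {V : Set ℕ} {E : List (List ℕ)} {p : ℕ → Pt} (h : Realizes V E p)
    {v1 v2 v3 : ℕ} (he : [v1, v2, v3] ∈ E) (h1 : v1 ∈ V) (h2 : v2 ∈ V) (h3 : v3 ∈ V) :
    Col (p v1) (p v2) (p v3) := by
  obtain ⟨a, b, hab⟩ := h.2 _ he
  exact col_of_mem_segment ((hab v1 h1).2 (by simp)) ((hab v2 h2).2 (by simp))
    ((hab v3 h3).2 (by simp))

theorem gad_sound {V : Set ℕ} {E : List (List ℕ)} {p : ℕ → Pt} (h : Realizes V E p)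
    {x y z : ℕ} {ν : Fin 6 → ℕ} (hE : ∀ e ∈ gad x y z ν, e ∈ E) (hx : x ∈ V) (hy : y ∈ V)
    (hz : z ∈ V) (hν : Function.Injective ν) (hνV : ∀ i, ν i ∈ V)
    (hνx : ∀ i, ν i ≠ x) : Col (p x) (p y) (p z) := by
  have ne : ∀ {u v : ℕ}, u ∈ V → v ∈ V → u ≠ v → p u ≠ p v := fun hu hv huv he =>
    huv (h.1 hu hv he)
  have nν : ∀ i j : Fin 6, i ≠ j → p (ν i) ≠ p (ν j) := fun i j hij =>
    ne (hνV i) (hνV j) (fun he => hij (hν he))
  have c : ∀ {v1 v2 v3 : ℕ}, [v1, v2, v3] ∈ gad x y z ν → v1 ∈ V → v2 ∈ V → v3 ∈ V →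
      Col (p v1) (p v2) (p v3) := fun he h1 h2 h3 => col_of_edge h (hE _ he) h1 h2 h3
  refine pappus (A := p (ν 0)) (B := p (ν 1)) (C := p (ν 2)) (a := p (ν 3)) (b := p (ν 4))
    (c := p (ν 5)) (X := p x) (Y := p y) (Z := p z)
    (c (by simp [gad]) (hνV _) (hνV _) (hνV _)) (c (by simp [gad]) (hνV _) (hνV _) (hνV _))
    (c (by simp [gad]) (hνV _) (hνV _) hx) (c (by simp [gad]) (hνV _) (hνV _) hx)
    (c (by simp [gad]) (hνV _) (hνV _) hy) (c (by simp [gad]) (hνV _) (hνV _) hy)
    (c (by simp [gad]) (hνV _) (hνV _) hz) (c (by simp [gad]) (hνV _) (hνV _) hz)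
    (nν _ _ (by decide)) (nν _ _ (by decide)) (nν _ _ (by decide)) (nν _ _ (by decide))
    (nν _ _ (by decide)) (nν _ _ (by decide)) (nν _ _ (by decide)) (nν _ _ (by decide))
    (nν _ _ (by decide)) (nν _ _ (by decide)) (nν _ _ (by decide)) (nν _ _ (by decide))
    (ne hx (hνV 0) (hνx 0).symm) (ne hx (hνV 1) (hνx 1).symm)

section complete

/-- first coordinates of the six gadget points -/
noncomputable def gα (s : ℝ) : Fin 6 → ℝ := ![0, 1 - s, -s, (1 - s) / 2, 0, 1 / 2]
/-- second coordinates of the six gadget points -/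
noncomputable def gβ : Fin 6 → ℝ := ![1, 1, 1, 1 / 2, 1 / 2, 1 / 2]

theorem gβ_ne (i : Fin 6) : gβ i ≠ 0 := by
  fin_cases i <;> simp [gβ]

/-- The six gadget points. -/
noncomputable def gN (X d : Pt) (s : ℝ) (A : Pt) (i : Fin 6) : Pt :=
  X + gα s i • d + gβ i • (A - X)

theorem gN_gen (X d : Pt) (s : ℝ) (i : Fin 6) (q d' : Pt) (hd : d' ≠ 0) :
    ∀ᶠ t : ℝ in Filter.cofinite, cr (gN X d s (t, t ^ 2) i - q) d' ≠ 0 := by
  have h := cr_gen (X - (gβ i)⁻¹ • (X + gα s i • d - q)) d' hd
  filter_upwards [h] with t ht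
  have e : cr (gN X d s (t, t ^ 2) i - q) d' =
      gβ i * cr ((t, t ^ 2) - (X - (gβ i)⁻¹ • (X + gα s i • d - q))) d' := by
    have hb := gβ_ne i
    simp only [gN, cr, Prod.fst_sub, Prod.snd_sub, Prod.fst_add, Prod.snd_add, Prod.smul_fst,
      Prod.smul_snd, smul_eq_mul]
    field_simp
    ring
  rw [e]
  exact mul_ne_zero (gβ_ne i) ht

theorem gad_complete (V : Finset ℕ) (E : List (List ℕ)) (p : ℕ → Pt) (hp : Realizes V E p)
    (hE : ∀ e ∈ E, ∀ v ∈ e, v ∈ V) (x y z : ℕ) (hx : x ∈ V) (hy : y ∈ V) (hz : z ∈ V)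
    (hxy : x ≠ y) (hxz : x ≠ z) (hyz : y ≠ z) (hcol : Col (p x) (p y) (p z))
    (ν : Fin 6 → ℕ) (hν : Function.Injective ν) (hνV : ∀ i, ν i ∉ V) :
    ∃ p' : ℕ → Pt, (∀ v ∈ V, p' v = p v) ∧
      Realizes ((V ∪ Finset.univ.image ν : Finset ℕ) : Set ℕ) (E ++ gad x y z ν) p' := by
  classical
  obtain ⟨hinj, hseg⟩ := hp
  have hXY : p x ≠ p y := fun h => hxy (hinj hx hy h)
  have hXZ : p x ≠ p z := fun h => hxz (hinj hx hz h)
  have hYZ : p y ≠ p z := fun h => hyz (hinj hy hz h)
  obtain ⟨s, hs⟩ := exists_param_of_col hXY hcol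
  set X := p x with hX
  set d := p y - X with hd
  have hd0 : d ≠ 0 := sub_ne_zero.2 hXY.symm
  have hs0 : s ≠ 0 := by rintro rfl; apply hXZ; rw [hs]; simp
  have hs1 : s ≠ 1 := by rintro rfl; apply hYZ; rw [hs]; simp [hd]
  -- lines of the old segments
  have hline : ∀ e ∈ E, ∃ q d' : Pt, d' ≠ 0 ∧ ∃ a b : Pt, (∀ v ∈ (V : Set ℕ), p v ∈ segment ℝ a b ↔ v ∈ e) ∧
      ∀ P ∈ segment ℝ a b, cr (P - q) d' = 0 := by
    intro e he
    obtain ⟨a, b, hab⟩ := hseg e he
    obtain ⟨d', hd', h⟩ := segment_subset_line a b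
    exact ⟨a, d', hd', a, b, hab, h⟩
  choose! q dd hdd sa sb hsab hsl using hline
  -- choose the generic point
  have g0 : ∀ᶠ t : ℝ in Filter.cofinite, cr ((t, t ^ 2) - X) d ≠ 0 := cr_gen X d hd0
  have g1 : ∀ᶠ t : ℝ in Filter.cofinite, ∀ i : Fin 6, ∀ v ∈ V,
      cr (gN X d s (t, t ^ 2) i - p v) d ≠ 0 := by
    rw [Filter.eventually_all]
    intro i
    rw [Filter.eventually_all_finset]
    intro v hv
    exact gN_gen X d s i (p v) d hd0
  have g2 : ∀ᶠ t : ℝ in Filter.cofinite, ∀ i : Fin 6, ∀ e ∈ E.toFinset,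
      cr (gN X d s (t, t ^ 2) i - q e) (dd e) ≠ 0 := by
    rw [Filter.eventually_all]
    intro i
    rw [Filter.eventually_all_finset]
    intro e he
    exact gN_gen X d s i (q e) (dd e) (hdd e (List.mem_toFinset.1 he))
  have g3 : ∀ᶠ t : ℝ in Filter.cofinite, ∀ i : Fin 6, ∀ u ∈ V, ∀ v ∈ V, u ≠ v →
      cr (gN X d s (t, t ^ 2) i - p u) (p v - p u) ≠ 0 := by
    rw [Filter.eventually_all]
    intro i
    rw [Filter.eventually_all_finset]
    intro u hu
    rw [Filter.eventually_all_finset]
    intro v hv
    by_cases huv : u = v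
    · exact Filter.Eventually.of_forall (fun t h => absurd huv h)
    · have : p v - p u ≠ 0 := sub_ne_zero.2 (fun h => huv (hinj hu hv h.symm))
      filter_upwards [gN_gen X d s i (p u) (p v - p u) this] with t ht _
      exact ht
  obtain ⟨t, ht0, ht1, ht2, ht3⟩ := (g0.and (g1.and (g2.and g3))).exists
  obtain ⟨A, hA⟩ : ∃ A : Pt, A = (t, t ^ 2) := ⟨_, rfl⟩
  rw [← hA] at ht0 ht1 ht2 ht3
  set g := A - X with hg
  have hdg : cr d g ≠ 0 := by
    intro h
    apply ht0
    simp only [cr] at h ⊢
    linarith
  set N : Fin 6 → Pt := gN X d s A with hN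
  have hNdef : ∀ i, N i = X + gα s i • d + gβ i • g := fun i => rfl
  have hX0 : X = X + (0 : ℝ) • d + (0 : ℝ) • g := by simp
  have hY0 : p y = X + (1 : ℝ) • d + (0 : ℝ) • g := by simp [hd]
  have hZ0 : p z = X + s • d + (0 : ℝ) • g := by rw [hs]; simp
  set p' : ℕ → Pt := Function.extend ν N p with hp'
  have pν : ∀ i, p' (ν i) = N i := fun i => hν.extend_apply N p i
  have pV : ∀ v ∈ V, p' v = p v := by
    intro v hv
    apply Function.extend_apply'
    rintro ⟨i, rfl⟩
    exact hνV i hv
  have hNinj : ∀ i j, N i = N j → i = j := by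
    intro i j hij
    rw [hNdef, hNdef] at hij
    have h1 : cr (X + gα s i • d + gβ i • g - X) g = cr (X + gα s j • d + gβ j • g - X) g := by
      rw [hij]
    have h2 : cr d (X + gα s i • d + gβ i • g - X) = cr d (X + gα s j • d + gβ j • g - X) := by
      rw [hij]
    have h1' : gα s i * cr d g = gα s j * cr d g := by
      simp only [cr, Prod.fst_sub, Prod.snd_sub, Prod.fst_add, Prod.snd_add, Prod.smul_fst,
        Prod.smul_snd, smul_eq_mul] at h1 ⊢
      linarith
    have h2' : gβ i * cr d g = gβ j * cr d g := by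
      simp only [cr, Prod.fst_sub, Prod.snd_sub, Prod.fst_add, Prod.snd_add, Prod.smul_fst,
        Prod.smul_snd, smul_eq_mul] at h2 ⊢
      linarith
    have h3 := mul_right_cancel₀ hdg h1'
    have h4 := mul_right_cancel₀ hdg h2'
    have k0 : 1 - s ≠ 0 := fun h => hs1 (by linarith)
    fin_cases i <;> fin_cases j <;> simp [gα, gβ] at h3 h4 ⊢ <;>
      first | exact hs0 (by linarith) | exact hs1 (by linarith) | exact k0 (by linarith) | linarith
  have hNV : ∀ i, ∀ v ∈ V, N i ≠ p v := by
    intro i v hv h
    apply ht1 i v hv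
    have : gN X d s A i - p v = 0 := by rw [sub_eq_zero]; exact h
    rw [this]; simp [cr]
  refine ⟨p', pV, ?_, ?_⟩
  · -- injectivity
    intro u hu v hv huv
    simp only [Finset.coe_union, Finset.coe_image, Finset.coe_univ, Set.image_univ, Set.mem_union,
      Finset.mem_coe, Set.mem_range] at hu hv
    rcases hu with hu | ⟨i, rfl⟩ <;> rcases hv with hv | ⟨j, rfl⟩
    · rw [pV u hu, pV v hv] at huv
      exact hinj hu hv huv
    · rw [pV u hu, pν] at huv
      exact absurd huv.symm (hNV j u hu)
    · rw [pν, pV v hv] at huv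
      exact absurd huv (hNV i v hv)
    · rw [pν, pν] at huv
      rw [hNinj i j huv]
  · intro e he
    rw [List.mem_append] at he
    have split : ∀ v ∈ ((V ∪ Finset.univ.image ν : Finset ℕ) : Set ℕ), v ∈ V ∨ ∃ i, v = ν i := by
      intro v hv
      simp only [Finset.coe_union, Finset.coe_image, Finset.coe_univ, Set.image_univ, Set.mem_union,
        Finset.mem_coe, Set.mem_range] at hv
      rcases hv with hv | ⟨i, rfl⟩
      · exact Or.inl hv
      · exact Or.inr ⟨i, rfl⟩
    rcases he with he | he
    · -- old edges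
      refine ⟨sa e, sb e, ?_⟩
      intro v hv
      rcases split v hv with hv | ⟨i, rfl⟩
      · rw [pV v hv]
        exact hsab e he v hv
      · rw [pν]
        constructor
        · intro h
          exact absurd (hsl e he _ h) (ht2 i e (List.mem_toFinset.2 he))
        · intro h
          exact absurd (hE e he _ h) (hνV i)
    · -- new edges
      have trans : ∀ (i j : Fin 6) (u : ℕ), u ∈ V → i ≠ j → Col (N i) (N j) (p u) →
          (∀ k, k ≠ i → k ≠ j → ¬ Col (N i) (N j) (N k)) →
          ∃ a b : Pt, ∀ v ∈ ((V ∪ Finset.univ.image ν : Finset ℕ) : Set ℕ),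
            p' v ∈ segment ℝ a b ↔ v ∈ [ν i, ν j, u] := by
        intro i j u hu hij hc hk
        apply edge3
        · rw [pν, pν]
          exact fun h => hij (hNinj _ _ h)
        · rw [pν, pν, pV u hu]
          exact hc
        · intro v hv h1 h2 h3
          rcases split v hv with hv | ⟨k, rfl⟩
          · rw [pν, pν, pV v hv]
            intro hcv
            have := col_of_onL (fun h => hij (hNinj _ _ h)) (col_left (N i) (N j)) hc hcv
            apply ht3 i u hu v hv (fun h => h3 h.symm)
            change cr (N i - p u) (p v - p u) = 0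
            simp only [Col, cr, Prod.fst_sub, Prod.snd_sub] at this ⊢
            linarith
          · rw [pν, pν, pν]
            exact hk k (fun h => h1 (by rw [h])) (fun h => h2 (by rw [h]))
      have horiz : ∀ (i j k : Fin 6), i ≠ j → Col (N i) (N j) (N k) → gβ i = gβ j →
          (∀ l, l ≠ i → l ≠ j → l ≠ k → ¬ Col (N i) (N j) (N l)) →
          ∃ a b : Pt, ∀ v ∈ ((V ∪ Finset.univ.image ν : Finset ℕ) : Set ℕ),
            p' v ∈ segment ℝ a b ↔ v ∈ [ν i, ν j, ν k] := by
        intro i j k hij hc hβ hl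
        apply edge3
        · rw [pν, pν]
          exact fun h => hij (hNinj _ _ h)
        · rw [pν, pν, pν]
          exact hc
        · intro v hv h1 h2 h3
          rcases split v hv with hv | ⟨l, rfl⟩
          · rw [pν, pν, pV v hv]
            intro hcv
            have hαne : gα s j - gα s i ≠ 0 := by
              intro h
              apply hij
              apply hNinj
              rw [hNdef, hNdef, hβ]
              have : gα s i = gα s j := by linarith
              rw [this]
            apply ht1 i v hv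
            change cr (N i - p v) d = 0
            have e : cr (N j - N i) (p v - N i) = (gα s j - gα s i) * cr (N i - p v) d := by
              rw [hNdef, hNdef, hβ]
              simp only [cr, Prod.fst_sub, Prod.snd_sub, Prod.fst_add, Prod.snd_add, Prod.smul_fst,
                Prod.smul_snd, smul_eq_mul]
              ring
            rw [Col, e] at hcv
            exact (mul_eq_zero.1 hcv).resolve_left hαne
          · rw [pν, pν, pν]
            exact hl l (fun h => h1 (by rw [h])) (fun h => h2 (by rw [h])) (fun h => h3 (by rw [h]))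
      have k0 : 1 - s ≠ 0 := fun h => hs1 (by linarith)
      simp only [gad, List.mem_cons, List.not_mem_nil, or_false] at he
      rcases he with rfl | rfl | rfl | rfl | rfl | rfl | rfl | rfl
      · apply horiz 0 1 2 (by decide)
        · rw [hNdef, hNdef, hNdef, col_coord hdg]; simp [gα, gβ]
        · simp [gβ]
        · intro l h1 h2 h3
          rw [hNdef, hNdef, hNdef, col_coord hdg]
          intro h
          fin_cases l <;> first | exact h1 rfl | exact h2 rfl | exact h3 rfl | skip
          all_goals simp only [gα, gβ, Fin.mk_one, Fin.zero_eta, Fin.reduceFinMk, Fin.isValue,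
            Matrix.cons_val_zero, Matrix.cons_val_one, Matrix.cons_val] at h
          all_goals first | exact hs0 (by linarith) | exact hs1 (by linarith) | linarith
      · apply horiz 3 4 5 (by decide)
        · rw [hNdef, hNdef, hNdef, col_coord hdg]; simp [gα, gβ]
        · simp [gβ]
        · intro l h1 h2 h3
          rw [hNdef, hNdef, hNdef, col_coord hdg]
          intro h
          fin_cases l <;> first | exact h1 rfl | exact h2 rfl | exact h3 rfl | skip
          all_goals simp only [gα, gβ, Fin.mk_one, Fin.zero_eta, Fin.reduceFinMk, Fin.isValue,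
            Matrix.cons_val_zero, Matrix.cons_val_one, Matrix.cons_val] at h
          all_goals first | exact hs0 (by linarith) | exact hs1 (by linarith) | linarith
      · apply trans 0 4 x hx (by decide)
        · rw [hNdef, hNdef, ← hX]
          have := (col_coord (X := X) hdg (gα s 0) (gβ 0) (gα s 4) (gβ 4) 0 0).2 (by simp [gα, gβ])
          rwa [← hX0] at this
        · intro l h1 h2
          rw [hNdef, hNdef, hNdef, col_coord hdg]
          intro h
          fin_cases l <;> first | exact h1 rfl | exact h2 rfl | skip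
          all_goals simp only [gα, gβ, Fin.mk_one, Fin.zero_eta, Fin.reduceFinMk, Fin.isValue,
            Matrix.cons_val_zero, Matrix.cons_val_one, Matrix.cons_val] at h
          all_goals first | exact hs0 (by linarith) | exact hs1 (by linarith) | linarith
      · apply trans 3 1 x hx (by decide)
        · rw [hNdef, hNdef, ← hX]
          have := (col_coord (X := X) hdg (gα s 3) (gβ 3) (gα s 1) (gβ 1) 0 0).2
            (by simp [gα, gβ]; ring)
          rwa [← hX0] at this
        · intro l h1 h2
          rw [hNdef, hNdef, hNdef, col_coord hdg]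
          intro h
          fin_cases l <;> first | exact h1 rfl | exact h2 rfl | skip
          all_goals simp only [gα, gβ, Fin.mk_one, Fin.zero_eta, Fin.reduceFinMk, Fin.isValue,
            Matrix.cons_val_zero, Matrix.cons_val_one, Matrix.cons_val] at h
          all_goals first | exact hs0 (by linarith) | exact hs1 (by linarith) | linarith
      · apply trans 0 5 y hy (by decide)
        · rw [hNdef, hNdef, hY0, col_coord hdg]; simp [gα, gβ]; ring
        · intro l h1 h2
          rw [hNdef, hNdef, hNdef, col_coord hdg]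
          intro h
          fin_cases l <;> first | exact h1 rfl | exact h2 rfl | skip
          all_goals simp only [gα, gβ, Fin.mk_one, Fin.zero_eta, Fin.reduceFinMk, Fin.isValue,
            Matrix.cons_val_zero, Matrix.cons_val_one, Matrix.cons_val] at h
          all_goals first | exact hs0 (by linarith) | exact hs1 (by linarith) | linarith
      · apply trans 3 2 y hy (by decide)
        · rw [hNdef, hNdef, hY0, col_coord hdg]; simp [gα, gβ]; ring
        · intro l h1 h2
          rw [hNdef, hNdef, hNdef, col_coord hdg]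
          intro h
          fin_cases l <;> first | exact h1 rfl | exact h2 rfl | skip
          all_goals simp only [gα, gβ, Fin.mk_one, Fin.zero_eta, Fin.reduceFinMk, Fin.isValue,
            Matrix.cons_val_zero, Matrix.cons_val_one, Matrix.cons_val] at h
          all_goals first | exact hs0 (by linarith) | exact hs1 (by linarith) | linarith
      · apply trans 1 5 z hz (by decide)
        · rw [hNdef, hNdef, hZ0, col_coord hdg]; simp [gα, gβ]; ring
        · intro l h1 h2
          rw [hNdef, hNdef, hNdef, col_coord hdg]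
          intro h
          fin_cases l <;> first | exact h1 rfl | exact h2 rfl | skip
          all_goals simp only [gα, gβ, Fin.mk_one, Fin.zero_eta, Fin.reduceFinMk, Fin.isValue,
            Matrix.cons_val_zero, Matrix.cons_val_one, Matrix.cons_val] at h
          all_goals first | exact hs0 (by linarith) | exact hs1 (by linarith) | linarith
      · apply trans 4 2 z hz (by decide)
        · rw [hNdef, hNdef, hZ0, col_coord hdg]; simp [gα, gβ]; ring
        · intro l h1 h2
          rw [hNdef, hNdef, hNdef, col_coord hdg]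
          intro h
          fin_cases l <;> first | exact h1 rfl | exact h2 rfl | skip
          all_goals simp only [gα, gβ, Fin.mk_one, Fin.zero_eta, Fin.reduceFinMk, Fin.isValue,
            Matrix.cons_val_zero, Matrix.cons_val_one, Matrix.cons_val] at h
          all_goals first | exact hs0 (by linarith) | exact hs1 (by linarith) | linarith

end complete

end Pool.Agent.H621R2
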