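import Pool.Agent.H621R2.Lvl4

/-!
Quadrilateral gates for the slopes of lines through the origin.
-/

set_option autoImplicit false

namespace Pool.Agent.H621R2

/-- collinearity in coordinates -/
def Col2 (x1 y1 x2 y2 x3 y3 : ℝ) : Prop := (x2 - x1) * (y3 - y1) - (y2 - y1) * (x3 - x1) = 0

/-- The line through `(0, w)`: non-vertical direction is preserved. -/
theorem off_axis {x1 y1 x2 y2 w : ℝ} (h1 : x1 ≠ 0) (hc : Col2 x1 y1 x2 y2 0 w)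
    (hne : ¬ (x2 = 0 ∧ y2 = w)) : x2 ≠ 0 := by
  intro h
  subst h
  apply hne
  refine ⟨rfl, ?_⟩
  simp only [Col2] at hc
  have : x1 * (y2 - w) = 0 := by linarith
  rcases mul_eq_zero.1 this with h | h
  · exact absurd h h1
  · linarith

theorem slope_rel {x1 y1 x2 y2 w : ℝ} (h1 : x1 ≠ 0) (h2 : x2 ≠ 0) (hc : Col2 x1 y1 x2 y2 0 w) :
    y2 / x2 - y1 / x1 = w * (1 / x2 - 1 / x1) := by
  simp only [Col2] at hc
  field_simp
  linarith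

theorem S_sound {xc yc xa ya xb yb xd yd w v : ℝ} (hvw : w ≠ v)
    (hc : xc ≠ 0) (h1 : Col2 xc yc xa ya 0 w) (h2 : Col2 xc yc xb yb 0 v)
    (h3 : Col2 xa ya xd yd 0 v) (h4 : Col2 xb yb xd yd 0 w)
    (na : ¬ (xa = 0 ∧ ya = w)) (nb : ¬ (xb = 0 ∧ yb = v)) (nd : ¬ (xd = 0 ∧ yd = v)) :
    xa ≠ 0 ∧ xb ≠ 0 ∧ xd ≠ 0 ∧ ya / xa + yb / xb = yc / xc + yd / xd := by
  have ha := off_axis hc h1 na
  have hb := off_axis hc h2 nb
  have hd := off_axis ha h3 nd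
  refine ⟨ha, hb, hd, ?_⟩
  have e1 := slope_rel hc ha h1
  have e2 := slope_rel hc hb h2
  have e3 := slope_rel ha hd h3
  have e4 := slope_rel hb hd h4
  have key : (w - v) * (1 / xa + 1 / xb - 1 / xc - 1 / xd) = 0 := by linear_combination e4 - e1 + e2 - e3
  have hK := (mul_eq_zero.1 key).resolve_left (sub_ne_zero.2 hvw)
  linear_combination e1 - e4 + w * hK

theorem G_sound {xc yc xa ya xb yb xd yd xe ye w v : ℝ} (hw : w ≠ 0) (hv : v ≠ 0) (hvw : w ≠ v)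
    (hc : xc ≠ 0) (ha : xa ≠ 0) (hb : xb ≠ 0) (hd : xd ≠ 0) (he : xe ≠ 0)
    (h1 : Col2 xc yc xa ya 0 w) (h2 : Col2 xc yc xb yb 0 v)
    (h3 : Col2 xa ya xd yd 0 v) (h4 : Col2 xc yc xe ye 0 w) (h5 : Col2 xe ye xb yb xd yd) :
    (ya / xa - ye / xe) * (yb / xb - ye / xe) = (yc / xc - ye / xe) * (yd / xd - ye / xe) := by
  have e1 := slope_rel hc ha h1
  have e2 := slope_rel hc hb h2
  have e3 := slope_rel ha hd h3
  have e4 := slope_rel hc he h4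
  have e5 : (1 / xe) * (yb / xb - yd / xd) + (1 / xb) * (yd / xd - ye / xe) +
      (1 / xd) * (ye / xe - yb / xb) = 0 := by
    simp only [Col2] at h5
    field_simp
    linarith
  obtain ⟨ka, hka⟩ : ∃ k, k = 1 / xa := ⟨_, rfl⟩
  obtain ⟨kb, hkb⟩ : ∃ k, k = 1 / xb := ⟨_, rfl⟩
  obtain ⟨kc, hkc⟩ : ∃ k, k = 1 / xc := ⟨_, rfl⟩
  obtain ⟨kd, hkd⟩ : ∃ k, k = 1 / xd := ⟨_, rfl⟩
  obtain ⟨ke, hke⟩ : ∃ k, k = 1 / xe := ⟨_, rfl⟩
  obtain ⟨a, haa⟩ : ∃ k, k = ya / xa := ⟨_, rfl⟩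
  obtain ⟨b, hbb⟩ : ∃ k, k = yb / xb := ⟨_, rfl⟩
  obtain ⟨c, hcc⟩ : ∃ k, k = yc / xc := ⟨_, rfl⟩
  obtain ⟨d, hdd⟩ : ∃ k, k = yd / xd := ⟨_, rfl⟩
  obtain ⟨e, hee⟩ : ∃ k, k = ye / xe := ⟨_, rfl⟩
  rw [← hka, ← hkc, ← haa, ← hcc] at e1
  rw [← hkb, ← hkc, ← hbb, ← hcc] at e2
  rw [← hka, ← hkd, ← haa, ← hdd] at e3
  rw [← hke, ← hkc, ← hee, ← hcc] at e4
  rw [← hke, ← hkb, ← hkd, ← hbb, ← hdd, ← hee] at e5
  rw [← haa, ← hbb, ← hcc, ← hdd, ← hee]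
  -- (w - v) * Δ = 0
  have key : (w - v) * ((a - e) * (b - e) - (c - e) * (d - e)) = 0 := by
    have q1 : ka = kc + (a - c) / w := by field_simp; linarith
    have q2 : kb = kc + (b - c) / v := by field_simp; linarith
    have q3 : kd = ka + (d - a) / v := by field_simp; linarith
    have q4 : ke = kc + (e - c) / w := by field_simp; linarith
    rw [q3, q1, q2, q4] at e5
    field_simp at e5
    linarith
  have := (mul_eq_zero.1 key).resolve_left (sub_ne_zero.2 hvw)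
  linarith

end Pool.Agent.H621R2
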