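import Mathlib

/-!
Elementary plane geometry: cross products, collinearity, Pappus, avoiding finitely many lines.
-/

set_option autoImplicit false

namespace Pool.Agent.H621R2

/-- Points of the real plane. -/
abbrev Pt := ℝ × ℝ

/-- The cross product (determinant) of two plane vectors. -/
def cr (u v : Pt) : ℝ := u.1 * v.2 - u.2 * v.1

/-- Three points are collinear. -/
def Col (P Q R : Pt) : Prop := cr (Q - P) (R - P) = 0

theorem cr_gen (q d : Pt) (hd : d ≠ 0) :
    ∀ᶠ t : ℝ in Filter.cofinite, cr ((t, t ^ 2) - q) d ≠ 0 := by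
  rw [Filter.eventually_cofinite]
  set P : Polynomial ℝ := Polynomial.C (-d.1) * Polynomial.X ^ 2 + Polynomial.C d.2 * Polynomial.X
    + Polynomial.C (q.2 * d.1 - q.1 * d.2) with hP
  have hP0 : P ≠ 0 := by
    intro h0
    have h1 : P.coeff 2 = 0 := by rw [h0]; simp
    have h2 : P.coeff 1 = 0 := by rw [h0]; simp
    have e1 : P.coeff 2 = -d.1 := by
      rw [hP]
      simp [Polynomial.coeff_X, Polynomial.coeff_C]
    have e2 : P.coeff 1 = d.2 := by
      rw [hP]
      simp [Polynomial.coeff_X_pow, Polynomial.coeff_C]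
    apply hd
    ext
    · simp only [Prod.fst_zero]; linarith
    · simp only [Prod.snd_zero]; linarith
  refine (Polynomial.finite_setOf_isRoot hP0).subset ?_
  intro t ht
  simp only [Set.mem_setOf_eq, not_not] at ht
  simp only [Set.mem_setOf_eq, Polynomial.IsRoot.def]
  rw [hP]
  simp only [Polynomial.eval_add, Polynomial.eval_mul, Polynomial.eval_C, Polynomial.eval_pow,
    Polynomial.eval_X]
  simp only [cr, Prod.fst_sub, Prod.snd_sub] at ht
  linarith

theorem col_of_mem_segment {a b P Q R : Pt} (hP : P ∈ segment ℝ a b) (hQ : Q ∈ segment ℝ a b)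
    (hR : R ∈ segment ℝ a b) : Col P Q R := by
  rw [segment_eq_image'] at hP hQ hR
  obtain ⟨s, _, rfl⟩ := hP
  obtain ⟨t, _, rfl⟩ := hQ
  obtain ⟨r, _, rfl⟩ := hR
  simp only [Col, cr, Prod.fst_sub, Prod.snd_sub, Prod.fst_add, Prod.snd_add, Prod.smul_fst,
    Prod.smul_snd, smul_eq_mul]
  ring

/-- A segment is contained in a line. -/
theorem segment_subset_line (a b : Pt) : ∃ d : Pt, d ≠ 0 ∧ ∀ P ∈ segment ℝ a b, cr (P - a) d = 0 := by
  by_cases h : b - a = 0
  · refine ⟨(1, 0), by simp, ?_⟩
    intro P hP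
    have : b = a := by rwa [sub_eq_zero] at h
    rw [this, segment_same] at hP
    rw [Set.mem_singleton_iff] at hP
    simp [hP, cr]
  · refine ⟨b - a, h, ?_⟩
    intro P hP
    rw [segment_eq_image'] at hP
    obtain ⟨s, _, rfl⟩ := hP
    simp only [cr, Prod.fst_sub, Prod.snd_sub, Prod.fst_add, Prod.snd_add, Prod.smul_fst,
      Prod.smul_snd, smul_eq_mul]
    ring

theorem exists_smul_of_cr_eq_zero {u v : Pt} (hu : u ≠ 0) (h : cr u v = 0) : ∃ s : ℝ, v = s • u := by
  simp only [cr] at h
  by_cases h1 : u.1 = 0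
  · have h2 : u.2 ≠ 0 := by
      intro h2
      apply hu
      ext
      · simpa using h1
      · simpa using h2
    refine ⟨v.2 / u.2, ?_⟩
    ext
    · simp only [Prod.smul_fst, smul_eq_mul, h1, mul_zero]
      rw [h1] at h
      have : u.2 * v.1 = 0 := by linarith
      rcases mul_eq_zero.1 this with h3 | h3
      · exact absurd h3 h2
      · exact h3
    · simp only [Prod.smul_snd, smul_eq_mul]
      field_simp
  · refine ⟨v.1 / u.1, ?_⟩
    ext
    · simp only [Prod.smul_fst, smul_eq_mul]
      field_simp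
    · simp only [Prod.smul_snd, smul_eq_mul]
      field_simp
      linarith

/-- If three points are collinear and the first two are distinct then the third one is on the line
through them, with a parameter. -/
theorem exists_param_of_col {P Q R : Pt} (h : P ≠ Q) (hc : Col P Q R) :
    ∃ s : ℝ, R = P + s • (Q - P) := by
  obtain ⟨s, hs⟩ := exists_smul_of_cr_eq_zero (sub_ne_zero.2 h.symm) hc
  exact ⟨s, by rw [← hs]; abel⟩

theorem mem_segment_param {P D : Pt} {lo hi r : ℝ} (h1 : lo ≤ r) (h2 : r ≤ hi) :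
    P + r • D ∈ segment ℝ (P + lo • D) (P + hi • D) := by
  rcases eq_or_lt_of_le (h1.trans h2) with h | h
  · have : r = lo := le_antisymm (h ▸ h2) h1
    rw [this]
    exact left_mem_segment _ _ _
  · rw [segment_eq_image']
    refine ⟨(r - lo) / (hi - lo), ⟨?_, ?_⟩, ?_⟩
    · exact div_nonneg (by linarith) (by linarith)
    · rw [div_le_one (by linarith)]; linarith
    · have h0 : hi - lo ≠ 0 := by linarith [sub_pos.2 h]
      ext
      · simp only [Prod.fst_sub, Prod.fst_add, Prod.smul_fst, smul_eq_mul]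
        field_simp
        ring
      · simp only [Prod.snd_sub, Prod.snd_add, Prod.smul_snd, smul_eq_mul]
        field_simp
        ring

theorem col_of_mem_segment_param {P D : Pt} {lo hi : ℝ} {R : Pt}
    (h : R ∈ segment ℝ (P + lo • D) (P + hi • D)) : cr D (R - P) = 0 := by
  rw [segment_eq_image'] at h
  obtain ⟨s, _, rfl⟩ := h
  simp only [cr, Prod.fst_sub, Prod.snd_sub, Prod.fst_add, Prod.snd_add, Prod.smul_fst,
      Prod.smul_snd, smul_eq_mul]
  ring

/-- Three collinear points such that no other vertex is on their line can be covered by a segment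
containing exactly these three vertices. -/
theorem edge3 (p : ℕ → Pt) (V : Set ℕ) (v1 v2 v3 : ℕ) (h12 : p v1 ≠ p v2)
    (hcol : Col (p v1) (p v2) (p v3))
    (hoff : ∀ v ∈ V, v ≠ v1 → v ≠ v2 → v ≠ v3 → ¬ Col (p v1) (p v2) (p v)) :
    ∃ a b : Pt, ∀ v ∈ V, p v ∈ segment ℝ a b ↔ v ∈ [v1, v2, v3] := by
  obtain ⟨s, hs⟩ := exists_param_of_col h12 hcol
  have e1 : p v1 = p v1 + (0 : ℝ) • (p v2 - p v1) := by simp
  have e2 : p v2 = p v1 + (1 : ℝ) • (p v2 - p v1) := by simp
  refine ⟨p v1 + (min 0 s) • (p v2 - p v1), p v1 + (max 1 s) • (p v2 - p v1), ?_⟩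
  intro v hv
  constructor
  · intro h
    by_contra hne
    simp only [List.mem_cons, List.not_mem_nil, or_false, not_or] at hne
    exact hoff v hv hne.1 hne.2.1 hne.2.2 (col_of_mem_segment_param h)
  · intro h
    simp only [List.mem_cons, List.not_mem_nil, or_false] at h
    rcases h with rfl | rfl | rfl
    · have := mem_segment_param (P := p v) (D := p v2 - p v) (r := 0) (min_le_left 0 s)
        ((zero_le_one).trans (le_max_left 1 s))
      rwa [← e1] at this
    · have := mem_segment_param (P := p v1) (D := p v - p v1) (r := 1)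
        ((min_le_left 0 s).trans zero_le_one) (le_max_left 1 s)
      rwa [← e2] at this
    · have := mem_segment_param (P := p v1) (D := p v2 - p v1) (r := s)
        (min_le_right 0 s) (le_max_right 1 s)
      rwa [← hs] at this

theorem col_coord {X d g : Pt} (h : cr d g ≠ 0) (α₁ β₁ α₂ β₂ α₃ β₃ : ℝ) :
    Col (X + α₁ • d + β₁ • g) (X + α₂ • d + β₂ • g) (X + α₃ • d + β₃ • g) ↔
      (α₂ - α₁) * (β₃ - β₁) - (β₂ - β₁) * (α₃ - α₁) = 0 := by
  have key : cr (X + α₂ • d + β₂ • g - (X + α₁ • d + β₁ • g))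
      (X + α₃ • d + β₃ • g - (X + α₁ • d + β₁ • g)) =
      ((α₂ - α₁) * (β₃ - β₁) - (β₂ - β₁) * (α₃ - α₁)) * cr d g := by
    simp only [cr, Prod.fst_sub, Prod.snd_sub, Prod.fst_add, Prod.snd_add, Prod.smul_fst,
      Prod.smul_snd, smul_eq_mul]
    ring
  unfold Col
  rw [key, mul_eq_zero]
  tauto

end Pool.Agent.H621R2
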