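import Pool.Agent.H621R2.Lvl3D
import Pool.Agent.ER.Hard

/-!
From systems of constraints to gates.
-/

set_option autoImplicit false

namespace Pool.Agent.H621R2

open Pool.Agent.NPC Pool.Agent.NPC.ER

/-- fresh node names of the `k`-th constraint -/
def fn (k j : ℕ) : ℕ := 2 * (5 * k + j) + 3

/-- node of a variable -/
def nv (i : ℕ) : ℕ := 2 * i + 4

/-- The gates of a constraint; `c` is the numerical code of a constraint. -/
def conG (c : ℕ × ℕ × ℕ × ℕ) (k : ℕ) : List Gt :=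
  if c.1 = 0 then
    [(1, fn k 0, fn k 1, 0, 2), (1, nv c.2.1, 0, fn k 0, fn k 1)]
  else if c.1 = 1 then
    [(1, fn k 0, fn k 1, 0, nv c.2.2.2), (1, nv c.2.1, nv c.2.2.1, fn k 0, fn k 1)]
  else
    [(1, fn k 0, 2, 0, fn k 1), (1, nv c.2.1, nv c.2.2.1, fn k 1, fn k 3),
      (fn k 0, nv c.2.1, nv c.2.2.1, fn k 2, fn k 1), (0, fn k 0, fn k 3, 2, fn k 4),
      (1, fn k 2, fn k 4, 0, nv c.2.2.2)]

/-- The gates of a system. -/
def gatesOf (S : List Con) : List Gt := S.zipIdx.flatMap (fun q => conG q.1.code q.2)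

theorem gatesOf_sound {S : List Con} {fin : ℕ → Prop} {val : ℕ → ℝ} (f0 : fin 0) (v0 : val 0 = 0)
    (_f2 : fin 2) (v2 : val 2 = 1) (h : ∀ g ∈ gatesOf S, SoundGate fin val g) : Sat S := by
  refine ⟨fun i => val (nv i), ?_⟩
  intro c hc
  obtain ⟨k, hk⟩ := mem_zipIdx_of_mem hc 0
  have hg : ∀ g ∈ conG c.code k, SoundGate fin val g := fun g hg =>
    h g (List.mem_flatMap.2 ⟨(c, k), hk, hg⟩)
  cases c with
  | one i =>
    obtain ⟨g1, -⟩ := hg (1, fn k 0, fn k 1, 0, 2) (by simp [conG, Con.code])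
    obtain ⟨g2, -⟩ := hg (1, nv i, 0, fn k 0, fn k 1) (by simp [conG, Con.code])
    simp only at g1 g2
    obtain ⟨a1, a2, a3, a4⟩ := g1 trivial f0
    obtain ⟨b1, b2, b3, b4⟩ := g2 trivial a1
    simp only [Con.Holds]
    rw [v0, v2] at a4
    rw [v0] at b4
    linarith
  | add i j l =>
    obtain ⟨g1, -⟩ := hg (1, fn k 0, fn k 1, 0, nv l) (by simp [conG, Con.code])
    obtain ⟨g2, -⟩ := hg (1, nv i, nv j, fn k 0, fn k 1) (by simp [conG, Con.code])
    simp only at g1 g2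
    obtain ⟨a1, a2, a3, a4⟩ := g1 trivial f0
    obtain ⟨b1, b2, b3, b4⟩ := g2 trivial a1
    simp only [Con.Holds]
    rw [v0] at a4
    linarith
  | mul i j l =>
    obtain ⟨g1, -⟩ := hg (1, fn k 0, 2, 0, fn k 1) (by simp [conG, Con.code])
    obtain ⟨g2, -⟩ := hg (1, nv i, nv j, fn k 1, fn k 3) (by simp [conG, Con.code])
    obtain ⟨-, g3⟩ := hg (fn k 0, nv i, nv j, fn k 2, fn k 1) (by simp [conG, Con.code])
    obtain ⟨-, g4⟩ := hg (0, fn k 0, fn k 3, 2, fn k 4) (by simp [conG, Con.code])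
    obtain ⟨g5, -⟩ := hg (1, fn k 2, fn k 4, 0, nv l) (by simp [conG, Con.code])
    simp only at g1 g2 g3 g4 g5
    obtain ⟨a1, a2, a3, a4⟩ := g1 trivial f0
    obtain ⟨b1, b2, b3, b4⟩ := g2 trivial a3
    obtain ⟨c1, c2, c3, c4⟩ := g5 trivial f0
    have d3 := g3 (by simp only [fn]; omega) a1 b1 b2 c1 a3
    have d4 := g4 (by decide) f0 a1 b3 a2 c2
    simp only [Con.Holds]
    rw [v0, v2] at a4
    rw [v0] at c4
    rw [v0, v2] at d4
    have e1 : val (fn k 1) = val (fn k 0) + 1 := by linarith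
    have e2 : val (fn k 3) = val (nv i) + val (nv j) - val (fn k 0) - 1 := by linarith
    have e3 : val (fn k 4) = val (fn k 0) * val (fn k 3) := by linarith
    rw [e1] at d3
    rw [e2] at e3
    linear_combination d3 - e3 + c4

/-- The assignment of values to nodes. -/
noncomputable def valOf (v : ℕ → ℝ) (h : ℕ → ℕ → ℝ) (n : ℕ) : ℝ :=
  if n = 0 then 0 else if n = 2 then 1 else if n % 2 = 0 then v ((n - 4) / 2) else
    h ((n - 3) / 2 / 5) ((n - 3) / 2 % 5)

theorem valOf_zero (v : ℕ → ℝ) (h : ℕ → ℕ → ℝ) : valOf v h 0 = 0 := by simp [valOf]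

theorem valOf_two (v : ℕ → ℝ) (h : ℕ → ℕ → ℝ) : valOf v h 2 = 1 := by simp [valOf]

theorem valOf_nv (v : ℕ → ℝ) (h : ℕ → ℕ → ℝ) (i : ℕ) : valOf v h (nv i) = v i := by
  have h1 : nv i ≠ 0 := by simp only [nv]; omega
  have h2 : nv i ≠ 2 := by simp only [nv]; omega
  have h3 : nv i % 2 = 0 := by simp only [nv]; omega
  have h4 : (nv i - 4) / 2 = i := by simp only [nv]; omega
  simp only [valOf, h1, h2, h3, h4, if_true, if_false]

theorem valOf_fn (v : ℕ → ℝ) (h : ℕ → ℕ → ℝ) (k j : ℕ) (hj : j < 5) :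
    valOf v h (fn k j) = h k j := by
  have h1 : fn k j ≠ 0 := by simp only [fn]; omega
  have h2 : fn k j ≠ 2 := by simp only [fn]; omega
  have h3 : fn k j % 2 ≠ 0 := by simp only [fn]; omega
  have h4 : (fn k j - 3) / 2 / 5 = k := by simp only [fn]; omega
  have h5 : (fn k j - 3) / 2 % 5 = j := by simp only [fn]; omega
  simp only [valOf, h1, h2, h3, h4, h5, if_false]

theorem fn_ne_one (k j : ℕ) : fn k j ≠ 1 := by simp only [fn]; omega

theorem nv_ne_one (i : ℕ) : nv i ≠ 1 := by simp only [nv]; omega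

theorem two_ne_one : (2 : ℕ) ≠ 1 := by decide

/-- auxiliary values for an addition -/
theorem add_aux (x y z : ℝ) (h : x + y = z) : ∃ r q : ℝ, r ≠ 0 ∧ r ≠ z ∧ q ≠ 0 ∧ q ≠ z ∧
    r + q = 0 + z ∧ x ≠ r ∧ x ≠ q ∧ y ≠ r ∧ y ≠ q ∧ x + y = r + q := by
  have hx := le_abs_self x
  have hy := le_abs_self y
  have hz := le_abs_self z
  have px := abs_nonneg x
  have py := abs_nonneg y
  have pz := abs_nonneg z
  refine ⟨1 + |x| + |y| + |z|, z - (1 + |x| + |y| + |z|), ?_, ?_, ?_, ?_, ?_, ?_, ?_, ?_, ?_, ?_⟩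
  · intro h1; linarith
  · intro h1; linarith
  · intro h1; linarith
  · intro h1; linarith
  · ring
  · intro h1; linarith
  · intro h1; linarith
  · intro h1; linarith
  · intro h1; linarith
  · linarith

/-- auxiliary values for a multiplication -/
theorem mul_aux (x y z : ℝ) (h : x * y = z) : ∃ e f c w g : ℝ,
    (e ≠ 0 ∧ e ≠ f ∧ 1 ≠ f ∧ e + 1 = 0 + f) ∧
    (x ≠ f ∧ x ≠ w ∧ y ≠ f ∧ y ≠ w ∧ x + y = f + w) ∧
    (x ≠ c ∧ y ≠ c ∧ e ≠ x ∧ e ≠ y ∧ e ≠ c ∧
      (x - e) * (y - e) = (c - e) * (f - e)) ∧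
    (e ≠ 1 ∧ e ≠ g ∧ w ≠ 1 ∧ w ≠ g ∧ 0 ≠ e ∧ 0 ≠ w ∧ 0 ≠ g ∧
      (e - 0) * (w - 0) = (1 - 0) * (g - 0)) ∧
    (c ≠ 0 ∧ c ≠ z ∧ g ≠ 0 ∧ g ≠ z ∧ c + g = 0 + z) := by
  have hx := le_abs_self x
  have hy := le_abs_self y
  have px := abs_nonneg x
  have py := abs_nonneg y
  have pxy := abs_nonneg (x * y)
  have nxy := neg_abs_le (x * y)
  obtain ⟨e, he⟩ : ∃ e, e = 3 + |x| + |y| + |x * y| := ⟨_, rfl⟩
  have e3 : 3 ≤ e := by linarith
  have ex : x < e := by linarith
  have ey : y < e := by linarith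
  have w0 : x + y - e - 1 < 0 := by linarith
  have c0 : 0 < e + (x - e) * (y - e) := by
    have h1 : 1 ≤ e + 1 - x - y := by linarith
    have h2 : e * 1 ≤ e * (e + 1 - x - y) := mul_le_mul_of_nonneg_left h1 (by linarith)
    nlinarith
  have g0 : e * (x + y - e - 1) < 0 := mul_neg_of_pos_of_neg (by linarith) w0
  have hsum : e + (x - e) * (y - e) + e * (x + y - e - 1) = z := by rw [← h]; ring
  refine ⟨e, e + 1, e + (x - e) * (y - e), x + y - e - 1, e * (x + y - e - 1),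
    ⟨?_, ?_, ?_, ?_⟩, ⟨?_, ?_, ?_, ?_, ?_⟩, ⟨?_, ?_, ?_, ?_, ?_, ?_⟩,
    ⟨?_, ?_, ?_, ?_, ?_, ?_, ?_, ?_⟩, ⟨?_, ?_, ?_, ?_, ?_⟩⟩
  · intro h1; linarith
  · intro h1; linarith
  · intro h1; linarith
  · ring
  · intro h1; linarith
  · intro h1; linarith
  · intro h1; linarith
  · intro h1; linarith
  · ring
  · intro h1
    have : (x - e) * (y - e - 1) = 0 := by linarith
    rcases mul_eq_zero.1 this with h2 | h2 <;> linarith
  · intro h1
    have : (y - e) * (x - e - 1) = 0 := by linarith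
    rcases mul_eq_zero.1 this with h2 | h2 <;> linarith
  · intro h1; linarith
  · intro h1; linarith
  · intro h1
    have : (x - e) * (y - e) = 0 := by linarith
    rcases mul_eq_zero.1 this with h2 | h2 <;> linarith
  · ring
  · intro h1; linarith
  · intro h1; linarith
  · intro h1; linarith
  · intro h1
    have : (x + y - e - 1) * (e - 1) = 0 := by linarith
    rcases mul_eq_zero.1 this with h2 | h2 <;> linarith
  · intro h1; linarith
  · intro h1; linarith
  · intro h1; linarith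
  · ring
  · intro h1; linarith
  · intro h1; linarith
  · intro h1; linarith
  · intro h1; linarith
  · linarith

theorem conG_complete (v : ℕ → ℝ) (c : Con) (hc : c.Holds v) : ∃ g : ℕ → ℝ,
    ∀ (k : ℕ) (h : ℕ → ℕ → ℝ), h k = g → ∀ gt ∈ conG c.code k, CompGate (valOf v h) gt := by
  cases c with
  | one i =>
    simp only [Con.Holds] at hc
    obtain ⟨r, q, a1, a2, a3, a4, a5, a6, a7, a8, a9, a10⟩ := add_aux (v i) 0 1 (by linarith)
    refine ⟨fun j => if j = 0 then r else q, ?_⟩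
    intro k h hk gt hgt
    have e0 : valOf v h (fn k 0) = r := by rw [valOf_fn _ _ _ _ (by norm_num), hk]; simp
    have e1 : valOf v h (fn k 1) = q := by rw [valOf_fn _ _ _ _ (by norm_num), hk]; simp
    simp only [conG, Con.code, if_true, List.mem_cons, List.not_mem_nil, or_false] at hgt
    rcases hgt with rfl | rfl
    · refine ⟨fn_ne_one _ _, fn_ne_one _ _, zero_ne_one, two_ne_one, ?_⟩
      simp only [e0, e1, valOf_zero, valOf_two]
      exact ⟨a1, a2, a3, a4, fun _ => a5, fun h => absurd rfl h⟩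
    · refine ⟨nv_ne_one _, zero_ne_one, fn_ne_one _ _, fn_ne_one _ _, ?_⟩
      simp only [e0, e1, valOf_zero, valOf_nv]
      exact ⟨a6, a7, a8, a9, fun _ => a10, fun h => absurd rfl h⟩
  | add i j l =>
    simp only [Con.Holds] at hc
    obtain ⟨r, q, a1, a2, a3, a4, a5, a6, a7, a8, a9, a10⟩ := add_aux _ _ _ hc
    refine ⟨fun j => if j = 0 then r else q, ?_⟩
    intro k h hk gt hgt
    have e0 : valOf v h (fn k 0) = r := by rw [valOf_fn _ _ _ _ (by norm_num), hk]; simp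
    have e1 : valOf v h (fn k 1) = q := by rw [valOf_fn _ _ _ _ (by norm_num), hk]; simp
    simp only [conG, Con.code, one_ne_zero, if_false, if_true, List.mem_cons, List.not_mem_nil,
      or_false] at hgt
    rcases hgt with rfl | rfl
    · refine ⟨fn_ne_one _ _, fn_ne_one _ _, zero_ne_one, nv_ne_one _, ?_⟩
      simp only [e0, e1, valOf_zero, valOf_nv]
      exact ⟨a1, a2, a3, a4, fun _ => a5, fun h => absurd rfl h⟩
    · refine ⟨nv_ne_one _, nv_ne_one _, fn_ne_one _ _, fn_ne_one _ _, ?_⟩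
      simp only [e0, e1, valOf_nv]
      exact ⟨a6, a7, a8, a9, fun _ => a10, fun h => absurd rfl h⟩
  | mul i j l =>
    simp only [Con.Holds] at hc
    obtain ⟨e, f, c, w, g, ⟨a1, a2, a3, a4⟩, ⟨b1, b2, b3, b4, b5⟩, ⟨c1, c2, c3, c4, c5, c6⟩,
      ⟨d1, d2, d3, d4, d5, d6, d7, d8⟩, ⟨t1, t2, t3, t4, t5⟩⟩ := mul_aux _ _ _ hc
    refine ⟨fun j => if j = 0 then e else if j = 1 then f else if j = 2 then c else
      if j = 3 then w else g, ?_⟩
    intro k h hk gt hgt
    have e0 : valOf v h (fn k 0) = e := by rw [valOf_fn _ _ _ _ (by norm_num), hk]; simp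
    have e1 : valOf v h (fn k 1) = f := by rw [valOf_fn _ _ _ _ (by norm_num), hk]; simp
    have e2 : valOf v h (fn k 2) = c := by rw [valOf_fn _ _ _ _ (by norm_num), hk]; simp
    have e3 : valOf v h (fn k 3) = w := by rw [valOf_fn _ _ _ _ (by norm_num), hk]; simp
    have e4 : valOf v h (fn k 4) = g := by rw [valOf_fn _ _ _ _ (by norm_num), hk]; simp
    have m1 : ¬ ((2 : ℕ) = 0) := by decide
    have m2 : ¬ ((2 : ℕ) = 1) := by decide
    simp only [conG, Con.code, m1, m2, if_false, List.mem_cons, List.not_mem_nil,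
      or_false] at hgt
    rcases hgt with rfl | rfl | rfl | rfl | rfl
    · refine ⟨fn_ne_one _ _, two_ne_one, zero_ne_one, fn_ne_one _ _, ?_⟩
      simp only [e0, e1, valOf_zero, valOf_two]
      exact ⟨a1, a2, one_ne_zero, a3, fun _ => a4, fun h => absurd rfl h⟩
    · refine ⟨nv_ne_one _, nv_ne_one _, fn_ne_one _ _, fn_ne_one _ _, ?_⟩
      simp only [e1, e3, valOf_nv]
      exact ⟨b1, b2, b3, b4, fun _ => b5, fun h => absurd rfl h⟩
    · refine ⟨nv_ne_one _, nv_ne_one _, fn_ne_one _ _, fn_ne_one _ _, ?_⟩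
      simp only [e0, e1, e2, valOf_nv]
      exact ⟨c1, b1, c2, b3, fun h => absurd h (fn_ne_one _ _), fun _ => ⟨c3, c4, c5, a2, c6⟩⟩
    · refine ⟨fn_ne_one _ _, fn_ne_one _ _, two_ne_one, fn_ne_one _ _, ?_⟩
      simp only [e0, e3, e4, valOf_zero, valOf_two]
      exact ⟨d1, d2, d3, d4, fun h => absurd h (by decide), fun _ => ⟨d5, d6, zero_ne_one, d7, d8⟩⟩
    · refine ⟨fn_ne_one _ _, fn_ne_one _ _, zero_ne_one, nv_ne_one _, ?_⟩
      simp only [e2, e4, valOf_zero, valOf_nv]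
      exact ⟨t1, t2, t3, t4, fun _ => t5, fun h => absurd rfl h⟩

theorem gatesOf_complete {S : List Con} (hS : Sat S) : ∃ val : ℕ → ℝ, val 0 = 0 ∧ val 2 = 1 ∧
    ∀ g ∈ gatesOf S, CompGate val g := by
  obtain ⟨v, hv⟩ := hS
  have hk : ∀ k, ∃ g : ℕ → ℝ, ∀ c, S[k]? = some c → ∀ (h : ℕ → ℕ → ℝ), h k = g →
      ∀ gt ∈ conG c.code k, CompGate (valOf v h) gt := by
    intro k
    cases hc : S[k]? with
    | none => exact ⟨fun _ => 0, fun c h => by simp at h⟩
    | some c =>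
      obtain ⟨g, hg⟩ := conG_complete v c (hv c (List.mem_of_getElem? hc))
      refine ⟨g, ?_⟩
      intro c' hc' h hh
      rw [Option.some.injEq] at hc'
      subst hc'
      exact hg k h hh
  choose h hh using hk
  refine ⟨valOf v h, valOf_zero _ _, valOf_two _ _, ?_⟩
  intro g hg
  rw [gatesOf, List.mem_flatMap] at hg
  obtain ⟨⟨c, k⟩, hck, hg⟩ := hg
  have := List.mem_zipIdx hck
  refine hh k c ?_ h rfl g hg
  rw [List.getElem?_eq_some_iff]
  exact ⟨by omega, by simpa using this.2.2.symm⟩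

/-- The whole reduction: hyperedges of the hypergraph of a system. -/
def edgesOf (S : List Con) : List (List ℕ) := hyp prs (trip (gatesOf S))

theorem trip_distinct {G : List Gt} {u : ℕ × ℕ × ℕ} (hu : u ∈ trip G) :
    u.1 ≠ u.2.1 ∧ u.1 ≠ u.2.2 ∧ u.2.1 ≠ u.2.2 := by
  rw [trip, List.mem_cons] at hu
  rcases hu with rfl | hu
  · decide
  · rw [List.mem_flatMap] at hu
    obtain ⟨⟨g, k⟩, _, hu⟩ := hu
    rw [gateT, List.mem_append] at hu
    rcases hu with hu | hu
    · simp only [List.mem_cons, List.not_mem_nil, or_false] at hu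
      rcases hu with rfl | rfl | rfl | rfl | rfl | rfl | rfl | rfl | rfl <;>
        simp only [pn] <;> omega
    · split_ifs at hu with he
      · simp only [List.mem_cons, List.not_mem_nil, or_false] at hu
        rcases hu with rfl
        simp only [pn]
        omega
      · simp only [List.mem_cons, List.not_mem_nil, or_false] at hu
        rcases hu with rfl | rfl | rfl <;> simp only [pn] <;> omega

theorem edgesOf_correct (S : List Con) :
    Sat S ↔ ∃ p, Realizes (vs (edgesOf S)) (edgesOf S) p := by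
  constructor
  · intro h
    obtain ⟨val, h0, h2, h⟩ := gatesOf_complete h
    obtain ⟨q, hq⟩ := gates_complete _ val h0 h2 h
    exact hyp_complete hq (fun u hu => trip_distinct hu)
  · rintro ⟨p, hp⟩
    obtain ⟨fin, val, f0, v0, f2, v2, h⟩ := gates_sound (hyp_sound hp)
    exact gatesOf_sound f0 v0 f2 v2 h

end Pool.Agent.H621R2
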