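import Pool.Agent.H621R2.Lvl3

/-!
Completeness: from a nondegenerate assignment to a point configuration.
-/

set_option autoImplicit false

namespace Pool.Agent.H621R2

theorem exists_notMem (s : Finset ℝ) : ∃ x, x ∉ s := Infinite.exists_notMem_finset s

theorem colκ {s1 s2 s3 k1 k2 k3 : ℝ} (h1 : k1 ≠ 0) (h2 : k2 ≠ 0) (h3 : k3 ≠ 0)
    (h : (s2 - s1) * (k3 - k1) = (k2 - k1) * (s3 - s1)) :
    Col (1 / k1, s1 / k1) (1 / k2, s2 / k2) (1 / k3, s3 / k3) := by
  have : cr ((1 / k2, s2 / k2) - (1 / k1, s1 / k1)) ((1 / k3, s3 / k3) - (1 / k1, s1 / k1)) =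
      ((s3 - s1) * (k1 - k2) - (s2 - s1) * (k1 - k3)) / (k1 * k2 * k3) := by
    simp only [cr, Prod.fst_sub, Prod.snd_sub]
    field_simp
    ring
  rw [Col, this]
  rw [div_eq_zero_iff]
  left
  linarith

theorem colv {s1 s2 k1 k2 k3 : ℝ} (h1 : k1 ≠ 0) (h2 : k2 ≠ 0) (h3 : k3 ≠ 0)
    (h : k2 - k1 = k3 * (s2 - s1)) :
    Col (1 / k1, s1 / k1) (1 / k2, s2 / k2) (0, 1 / k3) := by
  have : cr ((1 / k2, s2 / k2) - (1 / k1, s1 / k1)) ((0, 1 / k3) - (1 / k1, s1 / k1)) =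
      ((k1 - k2) + k3 * (s2 - s1)) / (k1 * k2 * k3) := by
    simp only [cr, Prod.fst_sub, Prod.snd_sub]
    field_simp
    ring
  rw [Col, this]
  rw [div_eq_zero_iff]
  left
  linarith

/-- placement of the seven points of one gate -/
theorem gate_place (F : Finset Pt) (a b c d e : ℝ) (hac : a ≠ c) (had : a ≠ d) (hbc : b ≠ c)
    (hbd : b ≠ d) (hea : e ≠ a) (heb : e ≠ b) (hec : e ≠ c) (hed : e ≠ d) :
    ∃ P : Fin 7 → Pt, Function.Injective P ∧ (∀ i, P i ∉ F) ∧ (∀ i, P i ≠ 0) ∧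
      (P 0).1 = 0 ∧ (P 3).1 = 0 ∧ (P 1).2 = c * (P 1).1 ∧ (P 2).2 = a * (P 2).1 ∧
      (P 4).2 = b * (P 4).1 ∧ (P 5).2 = d * (P 5).1 ∧ (P 6).2 = e * (P 6).1 ∧
      Col (P 1) (P 2) (P 0) ∧ Col (P 1) (P 4) (P 3) ∧ Col (P 2) (P 5) (P 3) ∧
      (a + b = c + d → Col (P 4) (P 5) (P 0)) ∧ Col (P 1) (P 6) (P 0) ∧
      ((a - e) * (b - e) = (c - e) * (d - e) → Col (P 6) (P 4) (P 5)) := by
  classical
  set K : Finset ℝ := insert 0 (F.image (fun f => 1 / f.1) ∪ F.image (fun f => 1 / f.2)) with hK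
  obtain ⟨β, hβ⟩ := exists_notMem K
  obtain ⟨σ, hσ⟩ := exists_notMem (insert β K)
  rw [Finset.mem_insert, not_or] at hσ
  obtain ⟨δ, hδ⟩ : ∃ δ, δ = σ - β := ⟨_, rfl⟩
  have hδ0 : δ ≠ 0 := by rw [hδ]; exact sub_ne_zero.2 hσ.1
  obtain ⟨α, hα⟩ := exists_notMem (K.image (fun x => x - β * c) ∪ K.image (fun x => x - β * a) ∪
    K.image (fun x => x - (β * b + (b - c) * δ)) ∪ K.image (fun x => x - (β * d + (d - a) * δ)) ∪
    K.image (fun x => x - β * e))
  simp only [Finset.mem_union, not_or] at hα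
  obtain ⟨⟨⟨⟨h1, h2⟩, h4⟩, h5⟩, h6⟩ := hα
  have aux : ∀ z : ℝ, α ∉ K.image (fun x => x - z) → α + z ∉ K := by
    intro z hz hmem
    apply hz
    rw [Finset.mem_image]
    exact ⟨α + z, hmem, by ring⟩
  obtain ⟨k1, hk1⟩ : ∃ k, k = α + β * c := ⟨_, rfl⟩
  obtain ⟨k2, hk2⟩ : ∃ k, k = α + β * a := ⟨_, rfl⟩
  obtain ⟨k4, hk4⟩ : ∃ k, k = α + (β * b + (b - c) * δ) := ⟨_, rfl⟩
  obtain ⟨k5, hk5⟩ : ∃ k, k = α + (β * d + (d - a) * δ) := ⟨_, rfl⟩
  obtain ⟨k6, hk6⟩ : ∃ k, k = α + β * e := ⟨_, rfl⟩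
  have m1 : k1 ∉ K := by rw [hk1]; exact aux _ h1
  have m2 : k2 ∉ K := by rw [hk2]; exact aux _ h2
  have m4 : k4 ∉ K := by rw [hk4]; exact aux _ h4
  have m5 : k5 ∉ K := by rw [hk5]; exact aux _ h5
  have m6 : k6 ∉ K := by rw [hk6]; exact aux _ h6
  have m3 : σ ∉ K := hσ.2
  have nz : ∀ {k : ℝ}, k ∉ K → k ≠ 0 := by
    intro k hk h0
    apply hk
    rw [h0, hK]
    exact Finset.mem_insert_self _ _
  have notF : ∀ {k : ℝ} (s : ℝ), k ∉ K → (1 / k, s / k) ∉ F := by
    intro k s hk hF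
    apply hk
    rw [hK]
    apply Finset.mem_insert_of_mem
    apply Finset.mem_union_left
    rw [Finset.mem_image]
    exact ⟨_, hF, by simp⟩
  have notFv : ∀ {k : ℝ}, k ∉ K → ((0 : ℝ), 1 / k) ∉ F := by
    intro k hk hF
    apply hk
    rw [hK]
    apply Finset.mem_insert_of_mem
    apply Finset.mem_union_right
    rw [Finset.mem_image]
    exact ⟨_, hF, by simp⟩
  have nez : ∀ {k : ℝ} (s : ℝ), k ∉ K → ((1 / k, s / k) : Pt) ≠ 0 := by
    intro k s hk h0
    have := congrArg Prod.fst h0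
    simp only [Prod.fst_zero] at this
    exact (one_div_ne_zero (nz hk)) this
  have nezv : ∀ {k : ℝ}, k ∉ K → (((0 : ℝ), 1 / k) : Pt) ≠ 0 := by
    intro k hk h0
    have := congrArg Prod.snd h0
    simp only [Prod.snd_zero] at this
    exact (one_div_ne_zero (nz hk)) this
  have z0 := nz hβ
  have z1 := nz m1
  have z2 := nz m2
  have z3 := nz m3
  have z4 := nz m4
  have z5 := nz m5
  have z6 := nz m6
  have vne : ∀ {k k' : ℝ} (s : ℝ), k' ≠ 0 → (((0 : ℝ), 1 / k) : Pt) ≠ (1 / k', s / k') := by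
    intro k k' s hk h0
    have := congrArg Prod.fst h0
    simp only at this
    exact (one_div_ne_zero hk) this.symm
  have vvne : (((0 : ℝ), 1 / β) : Pt) ≠ (0, 1 / σ) := by
    intro h0
    have := congrArg Prod.snd h0
    simp only at this
    rw [div_eq_div_iff z0 z3] at this
    exact hσ.1 (by linarith)
  have nn : ∀ {k k' s s' : ℝ}, k ≠ 0 → k' ≠ 0 → (s = s' → k ≠ k') →
      ((1 / k, s / k) : Pt) ≠ (1 / k', s' / k') := by
    intro k k' s s' hk hk' hs h0
    have e1 := congrArg Prod.fst h0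
    have e2 := congrArg Prod.snd h0
    simp only at e1 e2
    have e3 : k = k' := by
      rw [div_eq_div_iff hk hk'] at e1
      linarith
    subst e3
    have e4 : s = s' := by
      rw [div_left_inj' hk] at e2
      exact e2
    exact hs e4 rfl
  refine ⟨![(0, 1 / β), (1 / k1, c / k1), (1 / k2, a / k2), (0, 1 / σ), (1 / k4, b / k4),
    (1 / k5, d / k5), (1 / k6, e / k6)], ?_, ?_, ?_, ?_, ?_, ?_, ?_, ?_, ?_, ?_, ?_, ?_, ?_, ?_, ?_,
    ?_⟩
  · have n12 : ((1 / k1, c / k1) : Pt) ≠ (1 / k2, a / k2) := nn z1 z2 (fun h => absurd h.symm hac)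
    have n14 : ((1 / k1, c / k1) : Pt) ≠ (1 / k4, b / k4) := nn z1 z4 (fun h => absurd h.symm hbc)
    have n15 : ((1 / k1, c / k1) : Pt) ≠ (1 / k5, d / k5) := nn z1 z5 (fun h hk => by
      rw [hk1, hk5, h] at hk
      have : (d - a) * δ = 0 := by linarith
      rcases mul_eq_zero.1 this with h | h
      · exact had (by linarith)
      · exact hδ0 h)
    have n16 : ((1 / k1, c / k1) : Pt) ≠ (1 / k6, e / k6) := nn z1 z6 (fun h => absurd h.symm hec)
    have n24 : ((1 / k2, a / k2) : Pt) ≠ (1 / k4, b / k4) := nn z2 z4 (fun h hk => by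
      rw [hk2, hk4, h] at hk
      have : (b - c) * δ = 0 := by linarith
      rcases mul_eq_zero.1 this with h | h
      · exact hbc (by linarith)
      · exact hδ0 h)
    have n25 : ((1 / k2, a / k2) : Pt) ≠ (1 / k5, d / k5) := nn z2 z5 (fun h => absurd h had)
    have n26 : ((1 / k2, a / k2) : Pt) ≠ (1 / k6, e / k6) := nn z2 z6 (fun h => absurd h.symm hea)
    have n45 : ((1 / k4, b / k4) : Pt) ≠ (1 / k5, d / k5) := nn z4 z5 (fun h => absurd h hbd)
    have n46 : ((1 / k4, b / k4) : Pt) ≠ (1 / k6, e / k6) := nn z4 z6 (fun h => absurd h.symm heb)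
    have n56 : ((1 / k5, d / k5) : Pt) ≠ (1 / k6, e / k6) := nn z5 z6 (fun h => absurd h.symm hed)
    intro i j hij
    fin_cases i <;> fin_cases j <;> first | rfl | skip
    all_goals exfalso
    all_goals simp only [Fin.mk_one, Fin.zero_eta, Fin.reduceFinMk, Fin.isValue,
            Matrix.cons_val_zero, Matrix.cons_val_one, Matrix.cons_val] at hij
    all_goals first
      | exact vvne hij | exact vvne hij.symm
      | exact vne _ z1 hij | exact vne _ z1 hij.symm | exact vne _ z2 hij | exact vne _ z2 hij.symm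
      | exact vne _ z4 hij | exact vne _ z4 hij.symm | exact vne _ z5 hij | exact vne _ z5 hij.symm
      | exact vne _ z6 hij | exact vne _ z6 hij.symm
      | exact n12 hij | exact n12 hij.symm | exact n14 hij | exact n14 hij.symm
      | exact n15 hij | exact n15 hij.symm | exact n16 hij | exact n16 hij.symm
      | exact n24 hij | exact n24 hij.symm | exact n25 hij | exact n25 hij.symm
      | exact n26 hij | exact n26 hij.symm | exact n45 hij | exact n45 hij.symm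
      | exact n46 hij | exact n46 hij.symm | exact n56 hij | exact n56 hij.symm
  · intro i
    fin_cases i
    · exact notFv hβ
    · exact notF _ m1
    · exact notF _ m2
    · exact notFv m3
    · exact notF _ m4
    · exact notF _ m5
    · exact notF _ m6
  · intro i
    fin_cases i
    · exact nezv hβ
    · exact nez _ m1
    · exact nez _ m2
    · exact nezv m3
    · exact nez _ m4
    · exact nez _ m5
    · exact nez _ m6
  · rfl
  · rfl
  · simp; field_simp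
  · simp; field_simp
  · simp; field_simp
  · simp; field_simp
  · simp; field_simp
  · exact colv z1 z2 z0 (by rw [hk1, hk2]; ring)
  · exact colv z1 z4 z3 (by rw [hk1, hk4, hδ]; ring)
  · exact colv z2 z5 z3 (by rw [hk2, hk5, hδ]; ring)
  · intro hS
    exact colv z4 z5 z0 (by rw [hk4, hk5]; linear_combination δ * (-hS))
  · exact colv z1 z6 z0 (by rw [hk1, hk6]; ring)
  · intro hG
    exact colκ z6 z4 z5 (by rw [hk4, hk5, hk6]; linear_combination δ * (-hG))

/-- Nondegenerate satisfaction of a gate. -/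
def CompGate (val : ℕ → ℝ) (g : Gt) : Prop :=
  g.2.1 ≠ 1 ∧ g.2.2.1 ≠ 1 ∧ g.2.2.2.1 ≠ 1 ∧ g.2.2.2.2 ≠ 1 ∧
  val g.2.1 ≠ val g.2.2.2.1 ∧ val g.2.1 ≠ val g.2.2.2.2 ∧ val g.2.2.1 ≠ val g.2.2.2.1 ∧
  val g.2.2.1 ≠ val g.2.2.2.2 ∧
  (g.1 = 1 → val g.2.1 + val g.2.2.1 = val g.2.2.2.1 + val g.2.2.2.2) ∧
  (g.1 ≠ 1 → val g.1 ≠ val g.2.1 ∧ val g.1 ≠ val g.2.2.1 ∧ val g.1 ≠ val g.2.2.2.1 ∧
    val g.1 ≠ val g.2.2.2.2 ∧
    (val g.2.1 - val g.1) * (val g.2.2.1 - val g.1) =
      (val g.2.2.2.1 - val g.1) * (val g.2.2.2.2 - val g.1))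

/-- the geometric requirements on the seven points of a gate -/
def GateOK (val : ℕ → ℝ) (g : Gt) (P : Fin 7 → Pt) : Prop :=
  (P 0).1 = 0 ∧ (P 3).1 = 0 ∧ (P 1).2 = val g.2.2.2.1 * (P 1).1 ∧ (P 2).2 = val g.2.1 * (P 2).1 ∧
      (P 4).2 = val g.2.2.1 * (P 4).1 ∧ (P 5).2 = val g.2.2.2.2 * (P 5).1 ∧
      Col (P 1) (P 2) (P 0) ∧ Col (P 1) (P 4) (P 3) ∧ Col (P 2) (P 5) (P 3) ∧
      (g.1 = 1 → Col (P 4) (P 5) (P 0)) ∧
      (g.1 ≠ 1 → (P 6).2 = val g.1 * (P 6).1 ∧ Col (P 1) (P 6) (P 0) ∧ Col (P 6) (P 4) (P 5))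

theorem exists_gateOK (F : Finset Pt) (val : ℕ → ℝ) (g : Gt) (h : CompGate val g) :
    ∃ P : Fin 7 → Pt, Function.Injective P ∧ (∀ i, P i ∉ F) ∧ (∀ i, P i ≠ 0) ∧
      GateOK val g P := by
  obtain ⟨_, _, _, _, hac, had, hbc, hbd, hS, hG⟩ := h
  by_cases hg : g.1 = 1
  · obtain ⟨e, he⟩ := exists_notMem {val g.2.1, val g.2.2.1, val g.2.2.2.1, val g.2.2.2.2}
    simp only [Finset.mem_insert, Finset.mem_singleton, not_or] at he
    obtain ⟨P, h1, h2, h3, q0, q3, q1, q2, q4, q5, q6, c1, c2, c3, c4, c5, c6⟩ :=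
      gate_place F _ _ _ _ e hac had hbc hbd he.1 he.2.1 he.2.2.1 he.2.2.2
    exact ⟨P, h1, h2, h3, q0, q3, q1, q2, q4, q5, c1, c2, c3, fun _ => c4 (hS hg),
      fun h => absurd hg h⟩
  · obtain ⟨e1, e2, e3, e4, hG⟩ := hG hg
    obtain ⟨P, h1, h2, h3, q0, q3, q1, q2, q4, q5, q6, c1, c2, c3, c4, c5, c6⟩ :=
      gate_place F _ _ _ _ (val g.1) hac had hbc hbd e1 e2 e3 e4
    exact ⟨P, h1, h2, h3, q0, q3, q1, q2, q4, q5, c1, c2, c3, fun h => absurd h hg,
      fun _ => ⟨q6, c5, c6 hG⟩⟩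

theorem gates_place (val : ℕ → ℝ) : ∀ (G : List Gt) (k : ℕ) (F : Finset Pt),
    (∀ g ∈ G, CompGate val g) →
    ∃ Q : ℕ → Fin 7 → Pt, (∀ j i, k ≤ j → j < k + G.length → Q j i ∉ F ∧ Q j i ≠ 0) ∧
      (∀ j j' i i', k ≤ j → j < k + G.length → k ≤ j' → j' < k + G.length → Q j i = Q j' i' →
        j = j' ∧ i = i') ∧
      ∀ x ∈ G.zipIdx k, GateOK val x.1 (Q x.2)
  | [], k, F, _ => ⟨fun _ _ => 0, fun j i h1 h2 => by simp at h2; omega,
      fun j j' i i' h1 h2 => by simp at h2; omega, by simp⟩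
  | g :: G, k, F, h => by
    classical
    obtain ⟨P, hP1, hP2, hP3, hP4⟩ := exists_gateOK F val g (h g (by simp))
    obtain ⟨Q, hQ1, hQ2, hQ3⟩ := gates_place val G (k + 1) (F ∪ Finset.univ.image P)
      (fun g' hg' => h g' (by simp [hg']))
    refine ⟨fun j => if j = k then P else Q j, ?_, ?_, ?_⟩
    · intro j i h1 h2
      simp only [List.length_cons] at h2
      by_cases hj : j = k
      · simp only [hj, if_true]
        exact ⟨hP2 i, hP3 i⟩
      · simp only [hj, if_false]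
        have := hQ1 j i (by omega) (by omega)
        exact ⟨fun hF => this.1 (Finset.mem_union_left _ hF), this.2⟩
    · intro j j' i i' h1 h2 h3 h4 he
      simp only [List.length_cons] at h2 h4
      by_cases hj : j = k <;> by_cases hj' : j' = k
      · simp only [hj, hj', if_true] at he
        exact ⟨hj.trans hj'.symm, hP1 he⟩
      · simp only [hj, hj', if_true, if_false] at he
        exfalso
        apply (hQ1 j' i' (by omega) (by omega)).1
        rw [← he]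
        exact Finset.mem_union_right _ (Finset.mem_image_of_mem _ (Finset.mem_univ i))
      · simp only [hj, hj', if_true, if_false] at he
        exfalso
        apply (hQ1 j i (by omega) (by omega)).1
        rw [he]
        exact Finset.mem_union_right _ (Finset.mem_image_of_mem _ (Finset.mem_univ i'))
      · simp only [hj, hj', if_false] at he
        exact hQ2 j j' i i' (by omega) (by omega) (by omega) (by omega) he
    · intro x hx
      rw [List.zipIdx_cons, List.mem_cons] at hx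
      rcases hx with rfl | hx
      · simpa using hP4
      · have hk : x.2 ≠ k := by
          have := List.le_snd_of_mem_zipIdx hx
          omega
        simp only [hk, if_false]
        exact hQ3 x hx

end Pool.Agent.H621R2
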