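import Pool.Agent.H621R2.Lvl3C

/-!
Completeness of the point configuration: assembling everything.
-/

set_option autoImplicit false

namespace Pool.Agent.H621R2

/-- points of small sup norm -/
def Small (ε : ℝ) (P : Pt) : Prop := |P.1| ≤ 2 * ε ∧ |P.2| ≤ 2 * ε

theorem exists_eps (B : Finset Pt) (hB : ∀ f ∈ B, f ≠ 0) : ∃ ε : ℝ, 0 < ε ∧ ∀ f ∈ B, ¬ Small ε f := by
  classical
  induction B using Finset.induction_on with
  | empty => exact ⟨1, one_pos, by simp⟩
  | insert f B hf ih =>
    obtain ⟨ε, hε, h⟩ := ih (fun g hg => hB g (Finset.mem_insert_of_mem hg))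
    have hf0 := hB f (Finset.mem_insert_self _ _)
    have hpos : 0 < |f.1| + |f.2| := by
      by_contra hle
      apply hf0
      have h1 := abs_nonneg f.1
      have h2 := abs_nonneg f.2
      have h3 : |f.1| = 0 := by linarith
      have h4 : |f.2| = 0 := by linarith
      ext
      · simpa using abs_eq_zero.1 h3
      · simpa using abs_eq_zero.1 h4
    refine ⟨min ε ((|f.1| + |f.2|) / 8), lt_min hε (by linarith), ?_⟩
    intro g hg
    rw [Finset.mem_insert] at hg
    have m1 := min_le_left ε ((|f.1| + |f.2|) / 8)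
    have m2 := min_le_right ε ((|f.1| + |f.2|) / 8)
    rcases hg with rfl | hg
    · rintro ⟨h1, h2⟩
      linarith
    · rintro ⟨h1, h2⟩
      exact h g hg ⟨by linarith, by linarith⟩

/-- The marker point of a node. -/
noncomputable def marker (ε : ℝ) (val : ℕ → ℝ) (n : ℕ) : Pt :=
  if n = 0 then (ε, 0) else if n = 1 then (0, -(2 * ε)) else if n = 2 then (2 * ε, 2 * ε)
    else ((n : ℝ) + 1, val n * ((n : ℝ) + 1))

/-- Which markers are used. -/
def gnodes (G : List Gt) : List ℕ := G.flatMap (fun g => [g.1, g.2.1, g.2.2.1, g.2.2.2.1, g.2.2.2.2])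

theorem names_cases {G : List Gt} {v : ℕ} (hv : v ∈ names3 prs (trip G)) :
    v = 1 ∨ (∃ n, v = 2 * n ∧ (n = 0 ∨ n = 1 ∨ n = 2 ∨ n ∈ gnodes G)) ∨
      ∃ k j, k < G.length ∧ j < 7 ∧ v = pn k j := by
  rcases hv with ⟨u, hu, hv⟩ | ⟨u, hu, hv⟩
  · simp only [prs, List.mem_cons, List.not_mem_nil, or_false] at hu
    rcases hu with rfl | rfl | rfl <;> rcases hv with rfl | rfl
    · exact Or.inl rfl
    · exact Or.inr (Or.inl ⟨0, rfl, Or.inl rfl⟩)
    · exact Or.inl rfl
    · exact Or.inr (Or.inl ⟨1, rfl, Or.inr (Or.inl rfl)⟩)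
    · exact Or.inr (Or.inl ⟨0, rfl, Or.inl rfl⟩)
    · exact Or.inr (Or.inl ⟨1, rfl, Or.inr (Or.inl rfl)⟩)
  · rw [trip, List.mem_cons] at hu
    rcases hu with rfl | hu
    · rcases hv with rfl | rfl | rfl
      · exact Or.inr (Or.inl ⟨0, rfl, Or.inl rfl⟩)
      · exact Or.inr (Or.inl ⟨1, rfl, Or.inr (Or.inl rfl)⟩)
      · exact Or.inr (Or.inl ⟨2, rfl, Or.inr (Or.inr (Or.inl rfl))⟩)
    · rw [List.mem_flatMap] at hu
      obtain ⟨⟨g, k⟩, hgk, hu⟩ := hu
      have hg : g ∈ G := by
        have := List.mem_zipIdx hgk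
        rw [this.2.2]
        exact List.getElem_mem _
      have hk : k < G.length := by
        have := List.mem_zipIdx hgk
        omega
      have c2 : ∀ j, j < 7 → (pn k j = 1 ∨ (∃ n, pn k j = 2 * n ∧
          (n = 0 ∨ n = 1 ∨ n = 2 ∨ n ∈ gnodes G)) ∨ ∃ k' j', k' < G.length ∧ j' < 7 ∧ pn k j = pn k' j') :=
        fun j hj => Or.inr (Or.inr ⟨k, j, hk, hj, rfl⟩)
      have c3 : ∀ n, n ∈ gnodes G → (2 * n = 1 ∨ (∃ m, 2 * n = 2 * m ∧
          (m = 0 ∨ m = 1 ∨ m = 2 ∨ m ∈ gnodes G)) ∨ ∃ k' j', k' < G.length ∧ j' < 7 ∧ 2 * n = pn k' j') :=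
        fun n hn => Or.inr (Or.inl ⟨n, rfl, Or.inr (Or.inr (Or.inr hn))⟩)
      have c4 : (2 : ℕ) = 1 ∨ (∃ m, 2 = 2 * m ∧
          (m = 0 ∨ m = 1 ∨ m = 2 ∨ m ∈ gnodes G)) ∨ ∃ k' j', k' < G.length ∧ j' < 7 ∧ 2 = pn k' j' :=
        Or.inr (Or.inl ⟨1, rfl, Or.inr (Or.inl rfl)⟩)
      have c5 : (1 : ℕ) = 1 ∨ (∃ m, 1 = 2 * m ∧
          (m = 0 ∨ m = 1 ∨ m = 2 ∨ m ∈ gnodes G)) ∨ ∃ k' j', k' < G.length ∧ j' < 7 ∧ 1 = pn k' j' :=
        Or.inl rfl
      have mg : ∀ n, n ∈ [g.1, g.2.1, g.2.2.1, g.2.2.2.1, g.2.2.2.2] → n ∈ gnodes G := by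
        intro n hn
        rw [gnodes, List.mem_flatMap]
        exact ⟨g, hg, hn⟩
      simp only [gateT, List.mem_append, List.mem_cons, List.not_mem_nil, or_false] at hu
      rcases hu with (rfl | rfl | rfl | rfl | rfl | rfl | rfl | rfl | rfl) | hu
      · rcases hv with rfl | rfl | rfl <;> first | exact c5 | exact c4 | exact c2 _ (by decide)
      · rcases hv with rfl | rfl | rfl <;>
          first | exact c5 | exact c3 _ (mg _ (by simp)) | exact c2 _ (by decide)
      · rcases hv with rfl | rfl | rfl <;>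
          first | exact c5 | exact c3 _ (mg _ (by simp)) | exact c2 _ (by decide)
      · rcases hv with rfl | rfl | rfl <;> first | exact c5 | exact c4 | exact c2 _ (by decide)
      · rcases hv with rfl | rfl | rfl <;>
          first | exact c5 | exact c3 _ (mg _ (by simp)) | exact c2 _ (by decide)
      · rcases hv with rfl | rfl | rfl <;>
          first | exact c5 | exact c3 _ (mg _ (by simp)) | exact c2 _ (by decide)
      · rcases hv with rfl | rfl | rfl <;> exact c2 _ (by decide)
      · rcases hv with rfl | rfl | rfl <;> exact c2 _ (by decide)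
      · rcases hv with rfl | rfl | rfl <;> exact c2 _ (by decide)
      · split_ifs at hu with he
        · simp only [List.mem_cons, List.not_mem_nil, or_false] at hu
          rcases hu with rfl
          rcases hv with rfl | rfl | rfl <;> exact c2 _ (by decide)
        · simp only [List.mem_cons, List.not_mem_nil, or_false] at hu
          rcases hu with rfl | rfl | rfl
          · rcases hv with rfl | rfl | rfl <;>
              first | exact c5 | exact c3 _ (mg _ (by simp)) | exact c2 _ (by decide)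
          · rcases hv with rfl | rfl | rfl <;> exact c2 _ (by decide)
          · rcases hv with rfl | rfl | rfl <;> exact c2 _ (by decide)

theorem gates_complete (G : List Gt) (val : ℕ → ℝ) (h0 : val 0 = 0) (h2 : val 2 = 1)
    (h : ∀ g ∈ G, CompGate val g) : ∃ q, R3 prs (trip G) q := by
  classical
  set F : Finset Pt := ((gnodes G).toFinset.filter (fun n => 3 ≤ n)).image
    (fun n : ℕ => (((n : ℝ) + 1, val n * ((n : ℝ) + 1)) : Pt)) with hF
  obtain ⟨Q, hQ1, hQ2, hQ3⟩ := gates_place val G 0 F h
  set B : Finset Pt := F ∪ (Finset.range G.length ×ˢ Finset.univ).image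
    (fun x : ℕ × Fin 7 => Q x.1 x.2) with hB
  obtain ⟨ε, hε, hsmall⟩ := exists_eps B (by
    intro f hf
    rw [hB, Finset.mem_union] at hf
    rcases hf with hf | hf
    · rw [hF, Finset.mem_image] at hf
      obtain ⟨n, _, rfl⟩ := hf
      intro h0
      have := congrArg Prod.fst h0
      simp only [Prod.fst_zero] at this
      have h3 : (0 : ℝ) ≤ n := Nat.cast_nonneg n
      linarith
    · rw [Finset.mem_image] at hf
      obtain ⟨x, hx, rfl⟩ := hf
      rw [Finset.mem_product, Finset.mem_range] at hx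
      exact (hQ1 x.1 x.2 (Nat.zero_le _) (by omega)).2)
  set q : ℕ → Pt := fun v => if v = 1 then 0 else if v % 2 = 0 then marker ε val (v / 2) else
    Q ((v - 3) / 2 / 7) ⟨(v - 3) / 2 % 7, Nat.mod_lt _ (by norm_num)⟩ with hq
  have q1 : q 1 = 0 := by simp [hq]
  have qe : ∀ n, q (2 * n) = marker ε val n := by
    intro n
    have h1 : 2 * n ≠ 1 := by omega
    have h3 : 2 * n / 2 = n := by omega
    simp [hq, h1, h3]
  have qp : ∀ k j (hj : j < 7), q (pn k j) = Q k ⟨j, hj⟩ := by
    intro k j hj
    have h1 : pn k j ≠ 1 := by simp only [pn]; omega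
    have h3 : pn k j % 2 ≠ 0 := by simp only [pn]; omega
    have h4 : (pn k j - 3) / 2 = 7 * k + j := by simp only [pn]; omega
    have h5 : (7 * k + j) / 7 = k := by omega
    have h6 : (7 * k + j) % 7 = j := by omega
    simp only [hq, h1, if_false, h3, h4, h5]
    congr 1
    ext
    exact h6
  have hmk0 : marker ε val 0 = (ε, 0) := by simp [marker]
  have hmk1 : marker ε val 1 = (0, -(2 * ε)) := by simp [marker]
  have hmk2 : marker ε val 2 = (2 * ε, 2 * ε) := by simp [marker]
  have hmk : ∀ n, 3 ≤ n → marker ε val n = ((n : ℝ) + 1, val n * ((n : ℝ) + 1)) := by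
    intro n hn
    have h1 : n ≠ 0 := by omega
    have h3 : n ≠ 1 := by omega
    have h4 : n ≠ 2 := by omega
    simp [marker, h1, h3, h4]
  have bigM : ∀ n, 3 ≤ n → n ∈ gnodes G → marker ε val n ∈ F := by
    intro n hn hm
    rw [hmk n hn, hF, Finset.mem_image]
    exact ⟨n, by rw [Finset.mem_filter, List.mem_toFinset]; exact ⟨hm, hn⟩, rfl⟩
  have nsM : ∀ n, 3 ≤ n → n ∈ gnodes G → ¬ Small ε (marker ε val n) := fun n hn hm =>
    hsmall _ (Finset.mem_union_left _ (bigM n hn hm))
  have nsQ : ∀ k j (hj : j < 7), k < G.length → ¬ Small ε (Q k ⟨j, hj⟩) := fun k j hj hk =>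
    hsmall _ (Finset.mem_union_right _ (Finset.mem_image.2 ⟨(k, ⟨j, hj⟩), by
      rw [Finset.mem_product, Finset.mem_range]; exact ⟨hk, Finset.mem_univ _⟩, rfl⟩))
  have sm0 : Small ε (marker ε val 0) := by
    rw [hmk0]; simp only [Small, abs_zero]; rw [abs_of_pos hε]; constructor <;> linarith
  have sm1 : Small ε (marker ε val 1) := by
    rw [hmk1]; simp only [Small, abs_zero, abs_neg]
    rw [abs_of_pos (by linarith : (0 : ℝ) < 2 * ε)]; constructor <;> linarith
  have sm2 : Small ε (marker ε val 2) := by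
    rw [hmk2]; simp only [Small]
    rw [abs_of_pos (by linarith : (0 : ℝ) < 2 * ε)]; constructor <;> linarith
  have mne : ∀ n, marker ε val n ≠ 0 := by
    intro n hn
    rcases Nat.lt_or_ge n 3 with h3 | h3
    · interval_cases n
      · rw [hmk0] at hn
        have := congrArg Prod.fst hn
        simp only [Prod.fst_zero] at this
        linarith
      · rw [hmk1] at hn
        have := congrArg Prod.snd hn
        simp only [Prod.snd_zero] at this
        linarith
      · rw [hmk2] at hn
        have := congrArg Prod.fst hn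
        simp only [Prod.fst_zero] at this
        linarith
    · rw [hmk n h3] at hn
      have := congrArg Prod.fst hn
      simp only [Prod.fst_zero] at this
      have h4 : (0 : ℝ) ≤ n := Nat.cast_nonneg n
      linarith
  have okn : ∀ {n}, (n = 0 ∨ n = 1 ∨ n = 2 ∨ n ∈ gnodes G) → n < 3 ∨ (3 ≤ n ∧ n ∈ gnodes G) := by
    intro n hn
    rcases Nat.lt_or_ge n 3 with h3 | h3
    · exact Or.inl h3
    · right
      refine ⟨h3, ?_⟩
      rcases hn with rfl | rfl | rfl | hn <;> first | omega | exact hn
  have smlt : ∀ {n}, n < 3 → Small ε (marker ε val n) := by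
    intro n hn
    interval_cases n <;> assumption
  have minj : ∀ {n m}, (n = 0 ∨ n = 1 ∨ n = 2 ∨ n ∈ gnodes G) →
      (m = 0 ∨ m = 1 ∨ m = 2 ∨ m ∈ gnodes G) → marker ε val n = marker ε val m → n = m := by
    intro n m hn hm he
    rcases okn hn with h3 | ⟨h3, hn'⟩ <;> rcases okn hm with h4 | ⟨h4, hm'⟩
    · interval_cases n <;> interval_cases m <;> first | rfl | skip
      all_goals exfalso
      all_goals simp only [hmk0, hmk1, hmk2, Prod.mk.injEq] at he
      all_goals obtain ⟨e1, e2⟩ := he
      all_goals linarith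
    · exact absurd (he ▸ smlt h3) (nsM m h4 hm')
    · exact absurd (he ▸ smlt h4) (nsM n h3 hn')
    · rw [hmk n h3, hmk m h4] at he
      have := congrArg Prod.fst he
      simp only at this
      have h5 : (n : ℝ) = m := by linarith
      exact_mod_cast h5
  -- points in tiny segments are small
  have seg0 : ∀ P ∈ segment ℝ (0 : Pt) ((ε, 0) : Pt), Small ε P ∧ P.2 = 0 := by
    intro P hP
    rw [segment_eq_image'] at hP
    obtain ⟨t, ⟨ht0, ht1⟩, rfl⟩ := hP
    simp only [Small, Prod.fst_add, Prod.snd_add, Prod.smul_fst, Prod.smul_snd, Prod.fst_sub,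
      Prod.snd_sub, Prod.fst_zero, Prod.snd_zero, smul_eq_mul, sub_zero, zero_add, mul_zero,
      abs_zero]
    refine ⟨⟨?_, by linarith⟩, trivial⟩
    rw [abs_of_nonneg (mul_nonneg ht0 hε.le)]
    nlinarith
  have seg1 : ∀ P ∈ segment ℝ (0 : Pt) ((0, -(2 * ε)) : Pt), Small ε P ∧ P.1 = 0 := by
    intro P hP
    rw [segment_eq_image'] at hP
    obtain ⟨t, ⟨ht0, ht1⟩, rfl⟩ := hP
    simp only [Small, Prod.fst_add, Prod.snd_add, Prod.smul_fst, Prod.smul_snd, Prod.fst_sub,
      Prod.snd_sub, Prod.fst_zero, Prod.snd_zero, smul_eq_mul, sub_zero, zero_add, mul_zero,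
      abs_zero, mul_neg, abs_neg]
    refine ⟨⟨by linarith, ?_⟩, trivial⟩
    rw [abs_of_nonneg (mul_nonneg ht0 (by linarith))]
    nlinarith
  have seg2 : ∀ P ∈ segment ℝ ((ε, 0) : Pt) ((0, -(2 * ε)) : Pt), Small ε P ∧ P.2 ≤ 0 ∧
      P.2 = 2 * P.1 - 2 * ε := by
    intro P hP
    rw [segment_eq_image'] at hP
    obtain ⟨t, ⟨ht0, ht1⟩, rfl⟩ := hP
    simp only [Small, Prod.fst_add, Prod.snd_add, Prod.smul_fst, Prod.smul_snd, Prod.fst_sub,
      Prod.snd_sub, smul_eq_mul, sub_zero, zero_add, zero_sub, mul_neg, abs_neg]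
    refine ⟨⟨?_, ?_⟩, ?_, ?_⟩
    · rw [abs_of_nonneg (by nlinarith)]
      nlinarith
    · rw [abs_of_nonneg (mul_nonneg ht0 (by linarith))]
      nlinarith
    · nlinarith
    · ring
  refine ⟨q, ?_, ?_, ?_⟩
  · -- injectivity
    intro v hv w hw hvw
    rcases names_cases hv with rfl | ⟨n, rfl, hn⟩ | ⟨k, j, hk, hj, rfl⟩ <;>
      rcases names_cases hw with rfl | ⟨m, rfl, hm⟩ | ⟨l, i, hl, hi, rfl⟩
    · rfl
    · rw [q1, qe] at hvw
      exact absurd hvw.symm (mne m)
    · rw [q1, qp l i hi] at hvw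
      exact absurd hvw.symm (hQ1 l _ (Nat.zero_le _) (by omega)).2
    · rw [q1, qe] at hvw
      exact absurd hvw (mne n)
    · rw [qe, qe] at hvw
      rw [minj hn hm hvw]
    · rw [qe, qp l i hi] at hvw
      exfalso
      rcases okn hn with h3 | ⟨h3, hn'⟩
      · exact nsQ l i hi hl (hvw ▸ smlt h3)
      · exact (hQ1 l _ (Nat.zero_le _) (by omega)).1 (hvw ▸ bigM n h3 hn')
    · rw [q1, qp k j hj] at hvw
      exact absurd hvw (hQ1 k _ (Nat.zero_le _) (by omega)).2
    · rw [qe, qp k j hj] at hvw
      exfalso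
      rcases okn hm with h3 | ⟨h3, hm'⟩
      · exact nsQ k j hj hk (hvw ▸ smlt h3)
      · exact (hQ1 k _ (Nat.zero_le _) (by omega)).1 (hvw ▸ bigM m h3 hm')
    · rw [qp k j hj, qp l i hi] at hvw
      have := hQ2 k l _ _ (Nat.zero_le _) (by omega) (Nat.zero_le _) (by omega) hvw
      rw [this.1]
      have h3 := congrArg Fin.val this.2
      simp only at h3
      rw [h3]
  · -- collinear triples
    have cO : ∀ n P, n ≠ 1 → P.2 = val n * P.1 → Col (q 1) (q (2 * n)) P := by
      intro n P hn hP
      rw [q1, qe]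
      rcases Nat.lt_or_ge n 3 with h3 | h3
      · interval_cases n
        · rw [hmk0]; rw [h0] at hP
          simp only [Col, cr, Prod.fst_sub, Prod.snd_sub, Prod.fst_zero, Prod.snd_zero]
          rw [hP]; ring
        · exact absurd rfl hn
        · rw [hmk2]; rw [h2] at hP
          simp only [Col, cr, Prod.fst_sub, Prod.snd_sub, Prod.fst_zero, Prod.snd_zero]
          rw [hP]; ring
      · rw [hmk n h3]
        simp only [Col, cr, Prod.fst_sub, Prod.snd_sub, Prod.fst_zero, Prod.snd_zero]
        rw [hP]; ring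
    have cV : ∀ P : Pt, P.1 = 0 → Col (q 1) (q 2) P := by
      intro P hP
      have : q 2 = marker ε val 1 := qe 1
      rw [q1, this, hmk1]
      simp only [Col, cr, Prod.fst_sub, Prod.snd_sub, Prod.fst_zero, Prod.snd_zero]
      rw [hP]; ring
    intro u hu
    rw [trip, List.mem_cons] at hu
    rcases hu with rfl | hu
    · have e0 : q 0 = marker ε val 0 := qe 0
      have e2 : q 2 = marker ε val 1 := qe 1
      have e4 : q 4 = marker ε val 2 := qe 2
      simp only
      rw [e0, e2, e4, hmk0, hmk1, hmk2]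
      simp only [Col, cr, Prod.fst_sub, Prod.snd_sub]
      ring
    · rw [List.mem_flatMap] at hu
      obtain ⟨⟨g, k⟩, hgk, hu⟩ := hu
      have hg : g ∈ G := by
        have := List.mem_zipIdx hgk
        rw [this.2.2]
        exact List.getElem_mem _
      obtain ⟨r0, r3, r1, r2, r4, r5, c1, c2, c3, cS, cG⟩ := hQ3 _ hgk
      obtain ⟨na, nb, nc, nd, _⟩ := h g hg
      have p0 : q (pn k 0) = Q k 0 := qp k 0 (by norm_num)
      have p1 : q (pn k 1) = Q k 1 := qp k 1 (by norm_num)
      have p2 : q (pn k 2) = Q k 2 := qp k 2 (by norm_num)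
      have p3 : q (pn k 3) = Q k 3 := qp k 3 (by norm_num)
      have p4 : q (pn k 4) = Q k 4 := qp k 4 (by norm_num)
      have p5 : q (pn k 5) = Q k 5 := qp k 5 (by norm_num)
      have p6 : q (pn k 6) = Q k 6 := qp k 6 (by norm_num)
      simp only at r0 r3 r1 r2 r4 r5 c1 c2 c3 cS cG hu
      rw [gateT, List.mem_append] at hu
      rcases hu with hu | hu
      · simp only [List.mem_cons, List.not_mem_nil, or_false] at hu
        rcases hu with rfl | rfl | rfl | rfl | rfl | rfl | rfl | rfl | rfl <;> simp only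
        · exact cV _ (by rw [p0]; exact r0)
        · exact cO _ _ nc (by rw [p1]; exact r1)
        · exact cO _ _ na (by rw [p2]; exact r2)
        · exact cV _ (by rw [p3]; exact r3)
        · exact cO _ _ nb (by rw [p4]; exact r4)
        · exact cO _ _ nd (by rw [p5]; exact r5)
        · rw [p0, p1, p2]; exact c1
        · rw [p1, p3, p4]; exact c2
        · rw [p2, p3, p5]; exact c3
      · split_ifs at hu with he
        · simp only [List.mem_cons, List.not_mem_nil, or_false] at hu
          rcases hu with rfl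
          simp only
          rw [p0, p4, p5]; exact cS he
        · simp only [List.mem_cons, List.not_mem_nil, or_false] at hu
          obtain ⟨r6, c5, c6⟩ := cG he
          rcases hu with rfl | rfl | rfl <;> simp only
          · exact cO _ _ he (by rw [p6]; exact r6)
          · rw [p0, p1, p6]; exact c5
          · rw [p4, p5, p6]; exact c6
  · -- pairs
    have e0 : q 0 = (ε, 0) := (qe 0).trans hmk0
    have e2 : q 2 = (0, -(2 * ε)) := (qe 1).trans hmk1
    have e4 : q 4 = (2 * ε, 2 * ε) := (qe 2).trans hmk2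
    have big : ∀ w ∈ names3 prs (trip G), w ≠ 1 → w ≠ 0 → w ≠ 2 → w ≠ 4 → ¬ Small ε (q w) := by
      intro w hw h1 h3 h4 h5
      rcases names_cases hw with rfl | ⟨m, rfl, hm⟩ | ⟨l, i, hl, hi, rfl⟩
      · exact absurd rfl h1
      · rw [qe]
        rcases okn hm with h6 | ⟨h6, hm'⟩
        · omega
        · exact nsM m h6 hm'
      · rw [qp l i hi]
        exact nsQ l i hi hl
    intro u hu w hw hw1 hw2 hs
    simp only [prs, List.mem_cons, List.not_mem_nil, or_false] at hu
    rcases hu with rfl | rfl | rfl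
    · simp only at hw1 hw2 hs
      rw [q1, e0] at hs
      have := seg0 _ hs
      by_cases w2 : w = 2
      · rw [w2, e2] at this
        have h6 := this.2
        simp only at h6
        linarith
      · by_cases w4 : w = 4
        · rw [w4, e4] at this
          have h6 := this.2
          simp only at h6
          linarith
        · exact big w hw hw1 hw2 w2 w4 this.1
    · simp only at hw1 hw2 hs
      rw [q1, e2] at hs
      have := seg1 _ hs
      by_cases w0 : w = 0
      · rw [w0, e0] at this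
        have h6 := this.2
        simp only at h6
        linarith
      · by_cases w4 : w = 4
        · rw [w4, e4] at this
          have h6 := this.2
          simp only at h6
          linarith
        · exact big w hw hw1 w0 hw2 w4 this.1
    · simp only at hw1 hw2 hs
      rw [e0, e2] at hs
      have := seg2 _ hs
      by_cases w1 : w = 1
      · rw [w1, q1] at this
        have h6 := this.2.2
        simp only [Prod.fst_zero, Prod.snd_zero] at h6
        linarith
      · by_cases w4 : w = 4
        · rw [w4, e4] at this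
          have h6 := this.2.1
          simp only at h6
          linarith
        · exact big w hw w1 hw1 hw2 w4 this.1

end Pool.Agent.H621R2
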