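import Pool.Agent.H621R2.Gadget

/-!
From collinearity constraints on triples (and pairs forming hyperedges of size two) to hypergraphs
of rank three.
-/

set_option autoImplicit false

namespace Pool.Agent.H621R2

/-- The fresh names used by the `k`-th gadget. -/
def fr (k : ℕ) (i : Fin 6) : ℕ := 2 * (6 * k + i.val) + 1

theorem fr_inj {k l : ℕ} {i j : Fin 6} (h : fr k i = fr l j) : k = l ∧ i = j := by
  have hi := i.isLt
  have hj := j.isLt
  simp only [fr] at h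
  have : k = l := by omega
  refine ⟨this, ?_⟩
  ext
  omega

theorem fr_ne_even (k : ℕ) (i : Fin 6) (x : ℕ) : fr k i ≠ 2 * x := by
  simp only [fr]; omega

/-- The hyperedges of the gadgets. -/
def gads (T : List (ℕ × ℕ × ℕ)) (k : ℕ) : List (List ℕ) :=
  (T.zipIdx k).flatMap (fun q => gad (2 * q.1.1) (2 * q.1.2.1) (2 * q.1.2.2) (fr q.2))

/-- All hyperedges. -/
def hyp (P : List (ℕ × ℕ)) (T : List (ℕ × ℕ × ℕ)) : List (List ℕ) :=
  P.map (fun u => [2 * u.1, 2 * u.2]) ++ gads T 0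

/-- The vertex names occurring in a list of lists. -/
def vs (E : List (List ℕ)) : Set ℕ := {v | v ∈ E.flatten}

/-- The names in a level three instance. -/
def names3 (P : List (ℕ × ℕ)) (T : List (ℕ × ℕ × ℕ)) : Set ℕ :=
  {v | (∃ u ∈ P, v = u.1 ∨ v = u.2) ∨ (∃ u ∈ T, v = u.1 ∨ v = u.2.1 ∨ v = u.2.2)}

/-- Solutions of a level three instance. -/
def R3 (P : List (ℕ × ℕ)) (T : List (ℕ × ℕ × ℕ)) (q : ℕ → Pt) : Prop :=
  Set.InjOn q (names3 P T) ∧ (∀ u ∈ T, Col (q u.1) (q u.2.1) (q u.2.2)) ∧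
    ∀ u ∈ P, ∀ w ∈ names3 P T, w ≠ u.1 → w ≠ u.2 → q w ∉ segment ℝ (q u.1) (q u.2)

theorem gads_cons (x y z : ℕ) (T : List (ℕ × ℕ × ℕ)) (k : ℕ) :
    gads ((x, y, z) :: T) k = gad (2 * x) (2 * y) (2 * z) (fr k) ++ gads T (k + 1) := by
  simp [gads, List.zipIdx_cons]

theorem mem_gads_iff {T : List (ℕ × ℕ × ℕ)} {k : ℕ} {e : List ℕ} :
    e ∈ gads T k ↔ ∃ q ∈ T.zipIdx k, e ∈ gad (2 * q.1.1) (2 * q.1.2.1) (2 * q.1.2.2) (fr q.2) := by
  simp only [gads, List.mem_flatMap]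

theorem mem_zipIdx_of_mem {α : Type*} {T : List α} {u : α} (h : u ∈ T) (k : ℕ) :
    ∃ j, (u, j) ∈ T.zipIdx k := by
  obtain ⟨i, hi, rfl⟩ := List.getElem_of_mem h
  exact ⟨k + i, by
    rw [List.mem_iff_getElem]
    exact ⟨i, by simpa using hi, by simp⟩⟩

theorem mem_vs {E : List (List ℕ)} {e : List ℕ} {v : ℕ} (he : e ∈ E) (hv : v ∈ e) : v ∈ vs E := by
  simp only [vs, Set.mem_setOf_eq, List.mem_flatten]
  exact ⟨e, he, hv⟩

theorem hyp_sound {P : List (ℕ × ℕ)} {T : List (ℕ × ℕ × ℕ)} {p : ℕ → Pt}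
    (h : Realizes (vs (hyp P T)) (hyp P T) p) : R3 P T (fun v => p (2 * v)) := by
  have hgad : ∀ u ∈ T, ∃ j, ∀ e ∈ gad (2 * u.1) (2 * u.2.1) (2 * u.2.2) (fr j), e ∈ hyp P T := by
    intro u hu
    obtain ⟨j, hj⟩ := mem_zipIdx_of_mem hu 0
    refine ⟨j, fun e he => ?_⟩
    exact List.mem_append_right _ (mem_gads_iff.2 ⟨_, hj, he⟩)
  have hn : ∀ v ∈ names3 P T, 2 * v ∈ vs (hyp P T) := by
    intro v hv
    rcases hv with ⟨u, hu, hv⟩ | ⟨u, hu, hv⟩
    · have he : [2 * u.1, 2 * u.2] ∈ hyp P T :=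
        List.mem_append_left _ (List.mem_map.2 ⟨u, hu, rfl⟩)
      rcases hv with rfl | rfl
      · exact mem_vs he (by simp)
      · exact mem_vs he (by simp)
    · obtain ⟨j, hj⟩ := hgad u hu
      rcases hv with rfl | rfl | rfl
      · exact mem_vs (hj [fr j 0, fr j 4, 2 * u.1] (by simp [gad])) (by simp)
      · exact mem_vs (hj [fr j 0, fr j 5, 2 * u.2.1] (by simp [gad])) (by simp)
      · exact mem_vs (hj [fr j 1, fr j 5, 2 * u.2.2] (by simp [gad])) (by simp)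
  refine ⟨?_, ?_, ?_⟩
  · intro v hv w hw hvw
    have := h.1 (hn v hv) (hn w hw) hvw
    omega
  · intro u hu
    obtain ⟨j, hj⟩ := hgad u hu
    refine gad_sound h hj (hn _ (Or.inr ⟨u, hu, Or.inl rfl⟩))
      (hn _ (Or.inr ⟨u, hu, Or.inr (Or.inl rfl)⟩)) (hn _ (Or.inr ⟨u, hu, Or.inr (Or.inr rfl)⟩))
      (fun a b hab => (fr_inj hab).2) ?_ (fun i => fr_ne_even _ _ _)
    intro i
    have : ∃ e ∈ gad (2 * u.1) (2 * u.2.1) (2 * u.2.2) (fr j), fr j i ∈ e := by
      fin_cases i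
      · exact ⟨[fr j 0, fr j 1, fr j 2], by simp [gad], by simp⟩
      · exact ⟨[fr j 0, fr j 1, fr j 2], by simp [gad], by simp⟩
      · exact ⟨[fr j 0, fr j 1, fr j 2], by simp [gad], by simp⟩
      · exact ⟨[fr j 3, fr j 4, fr j 5], by simp [gad], by simp⟩
      · exact ⟨[fr j 3, fr j 4, fr j 5], by simp [gad], by simp⟩
      · exact ⟨[fr j 3, fr j 4, fr j 5], by simp [gad], by simp⟩
    obtain ⟨e, he, hi⟩ := this
    exact mem_vs (hj e he) hi
  · intro u hu w hw h1 h2 hseg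
    have he : [2 * u.1, 2 * u.2] ∈ hyp P T :=
      List.mem_append_left _ (List.mem_map.2 ⟨u, hu, rfl⟩)
    obtain ⟨a, b, hab⟩ := h.2 _ he
    have m1 : p (2 * u.1) ∈ segment ℝ a b := (hab _ (mem_vs he (by simp))).2 (by simp)
    have m2 : p (2 * u.2) ∈ segment ℝ a b := (hab _ (mem_vs he (by simp))).2 (by simp)
    have m3 : p (2 * w) ∈ segment ℝ a b := (convex_segment a b).segment_subset m1 m2 hseg
    have := (hab _ (hn w hw)).1 m3
    simp only [List.mem_cons, List.not_mem_nil, or_false] at this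
    omega

theorem gads_complete : ∀ (T : List (ℕ × ℕ × ℕ)) (k : ℕ) (V : Finset ℕ) (E : List (List ℕ))
    (p : ℕ → Pt), Realizes V E p → (∀ e ∈ E, ∀ v ∈ e, v ∈ V) →
    (∀ u ∈ T, 2 * u.1 ∈ V ∧ 2 * u.2.1 ∈ V ∧ 2 * u.2.2 ∈ V ∧ u.1 ≠ u.2.1 ∧ u.1 ≠ u.2.2 ∧
      u.2.1 ≠ u.2.2 ∧ Col (p (2 * u.1)) (p (2 * u.2.1)) (p (2 * u.2.2))) →
    (∀ j, k ≤ j → ∀ i, fr j i ∉ V) →
    ∃ (V' : Finset ℕ) (p' : ℕ → Pt), Realizes V' (E ++ gads T k) p' ∧
      (∀ e ∈ E ++ gads T k, ∀ v ∈ e, v ∈ V')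
  | [], k, V, E, p, h, hE, _, _ => ⟨V, p, by simpa [gads] using h, by simpa [gads] using hE⟩
  | (x, y, z) :: T, k, V, E, p, h, hE, hT, hV => by
    obtain ⟨hx, hy, hz, hxy, hxz, hyz, hc⟩ := hT (x, y, z) (by simp)
    simp only at hx hy hz hxy hxz hyz hc
    obtain ⟨p', hp', hr⟩ := gad_complete V E p h hE (2 * x) (2 * y) (2 * z) hx hy hz (by omega)
      (by omega) (by omega) hc (fr k) (fun a b hab => (fr_inj hab).2) (hV k le_rfl)
    have hE' : ∀ e ∈ E ++ gad (2 * x) (2 * y) (2 * z) (fr k), ∀ v ∈ e,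
        v ∈ V ∪ Finset.univ.image (fr k) := by
      intro e he v hv
      rw [List.mem_append] at he
      rcases he with he | he
      · exact Finset.mem_union_left _ (hE e he v hv)
      · rw [Finset.mem_union]
        have hf : ∀ i, fr k i ∈ Finset.univ.image (fr k) := fun i =>
          Finset.mem_image_of_mem _ (Finset.mem_univ i)
        simp only [gad, List.mem_cons, List.not_mem_nil, or_false] at he
        rcases he with rfl | rfl | rfl | rfl | rfl | rfl | rfl | rfl <;>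
          simp only [List.mem_cons, List.not_mem_nil, or_false] at hv <;>
          rcases hv with rfl | rfl | rfl <;>
          first | exact Or.inr (hf _) | exact Or.inl hx | exact Or.inl hy | exact Or.inl hz
    obtain ⟨V', p'', h1, h2⟩ := gads_complete T (k + 1) _ _ p' hr hE' (by
        intro u hu
        obtain ⟨a1, a2, a3, a4, a5, a6, a7⟩ := hT u (by simp [hu])
        refine ⟨Finset.mem_union_left _ a1, Finset.mem_union_left _ a2, Finset.mem_union_left _ a3,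
          a4, a5, a6, ?_⟩
        rw [hp' _ a1, hp' _ a2, hp' _ a3]
        exact a7) (by
        intro j hj i hi
        rw [Finset.mem_union] at hi
        rcases hi with hi | hi
        · exact hV j (by omega) i hi
        · simp only [Finset.mem_image, Finset.mem_univ, true_and] at hi
          obtain ⟨i', hi'⟩ := hi
          have := (fr_inj hi').1
          omega)
    refine ⟨V', p'', ?_, ?_⟩
    · rw [gads_cons, ← List.append_assoc]; exact h1
    · rw [gads_cons, ← List.append_assoc]; exact h2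

theorem Realizes.mono {V V' : Set ℕ} {E : List (List ℕ)} {p : ℕ → Pt} (h : Realizes V E p)
    (hV : V' ⊆ V) : Realizes V' E p :=
  ⟨h.1.mono hV, fun e he => by
    obtain ⟨a, b, hab⟩ := h.2 e he
    exact ⟨a, b, fun v hv => hab v (hV hv)⟩⟩

theorem hyp_complete {P : List (ℕ × ℕ)} {T : List (ℕ × ℕ × ℕ)} {q : ℕ → Pt}
    (h : R3 P T q) (hT : ∀ u ∈ T, u.1 ≠ u.2.1 ∧ u.1 ≠ u.2.2 ∧ u.2.1 ≠ u.2.2) :
    ∃ p, Realizes (vs (hyp P T)) (hyp P T) p := by
  classical
  set N : Finset ℕ := ((P.map (fun u => u.1)) ++ (P.map (fun u => u.2)) ++ (T.map (fun u => u.1)) ++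
    (T.map (fun u => u.2.1)) ++ (T.map (fun u => u.2.2))).toFinset with hN
  have hNn : ∀ v, v ∈ N ↔ v ∈ names3 P T := by
    intro v
    simp only [hN, List.mem_toFinset, List.mem_append, List.mem_map, names3, Set.mem_setOf_eq]
    constructor
    · rintro ((((⟨u, hu, rfl⟩ | ⟨u, hu, rfl⟩) | ⟨u, hu, rfl⟩) | ⟨u, hu, rfl⟩) | ⟨u, hu, rfl⟩)
      · exact Or.inl ⟨u, hu, Or.inl rfl⟩
      · exact Or.inl ⟨u, hu, Or.inr rfl⟩
      · exact Or.inr ⟨u, hu, Or.inl rfl⟩
      · exact Or.inr ⟨u, hu, Or.inr (Or.inl rfl)⟩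
      · exact Or.inr ⟨u, hu, Or.inr (Or.inr rfl)⟩
    · rintro (⟨u, hu, rfl | rfl⟩ | ⟨u, hu, rfl | rfl | rfl⟩)
      · exact Or.inl (Or.inl (Or.inl (Or.inl ⟨u, hu, rfl⟩)))
      · exact Or.inl (Or.inl (Or.inl (Or.inr ⟨u, hu, rfl⟩)))
      · exact Or.inl (Or.inl (Or.inr ⟨u, hu, rfl⟩))
      · exact Or.inl (Or.inr ⟨u, hu, rfl⟩)
      · exact Or.inr ⟨u, hu, rfl⟩
  set V : Finset ℕ := N.image (fun v => 2 * v) with hVdef
  have hmemV : ∀ v, v ∈ names3 P T → 2 * v ∈ V := fun v hv =>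
    Finset.mem_image.2 ⟨v, (hNn v).2 hv, rfl⟩
  have hq : ∀ v, q ((2 * v) / 2) = q v := fun v => by
    rw [Nat.mul_div_cancel_left v (by norm_num)]
  have h0 : Realizes (V : Set ℕ) (P.map (fun u => [2 * u.1, 2 * u.2])) (fun v => q (v / 2)) := by
    constructor
    · intro v hv w hw hvw
      simp only [hVdef, Finset.coe_image, Set.mem_image, Finset.mem_coe] at hv hw
      obtain ⟨v, hv, rfl⟩ := hv
      obtain ⟨w, hw, rfl⟩ := hw
      simp only [hq] at hvw
      rw [h.1 ((hNn v).1 hv) ((hNn w).1 hw) hvw]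
    · intro e he
      rw [List.mem_map] at he
      obtain ⟨u, hu, rfl⟩ := he
      refine ⟨q u.1, q u.2, ?_⟩
      intro v hv
      simp only [hVdef, Finset.coe_image, Set.mem_image, Finset.mem_coe] at hv
      obtain ⟨v, hv, rfl⟩ := hv
      simp only [hq, List.mem_cons, List.not_mem_nil, or_false]
      constructor
      · intro hs
        by_contra hne
        exact h.2.2 u hu v ((hNn v).1 hv) (by omega) (by omega) hs
      · intro hs
        have : v = u.1 ∨ v = u.2 := by omega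
        rcases this with rfl | rfl
        · exact left_mem_segment _ _ _
        · exact right_mem_segment _ _ _
  obtain ⟨V', p', h1, h2⟩ := gads_complete T 0 V _ _ h0 (by
      intro e he v hv
      rw [List.mem_map] at he
      obtain ⟨u, hu, rfl⟩ := he
      simp only [List.mem_cons, List.not_mem_nil, or_false] at hv
      rcases hv with rfl | rfl
      · exact hmemV _ (Or.inl ⟨u, hu, Or.inl rfl⟩)
      · exact hmemV _ (Or.inl ⟨u, hu, Or.inr rfl⟩)) (by
      intro u hu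
      obtain ⟨a1, a2, a3⟩ := hT u hu
      refine ⟨hmemV _ (Or.inr ⟨u, hu, Or.inl rfl⟩), hmemV _ (Or.inr ⟨u, hu, Or.inr (Or.inl rfl)⟩),
        hmemV _ (Or.inr ⟨u, hu, Or.inr (Or.inr rfl)⟩), a1, a2, a3, ?_⟩
      simp only [hq]
      exact h.2.1 u hu) (by
      intro j _ i hi
      simp only [hVdef, Finset.mem_image] at hi
      obtain ⟨v, _, hv⟩ := hi
      exact fr_ne_even _ _ _ hv.symm)
  refine ⟨p', ?_⟩
  refine Realizes.mono (V := (V' : Set ℕ)) h1 ?_
  intro v hv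
  simp only [vs, Set.mem_setOf_eq, List.mem_flatten] at hv
  obtain ⟨e, he, hv⟩ := hv
  exact h2 e he v hv

end Pool.Agent.H621R2
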