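import Pool.Agent.H306R2.RZ.Stubs4

set_option autoImplicit false

namespace Pool.Agent.H621R2.RZ4_HBLS

open Finset Filter Topology MeasureTheory Pool.Agent.H306R2.RZ

noncomputable section

theorem lsp_all : ∀ j : ℕ, 1 ≤ j → LSP (((j : ℝ) + 1) / j) := by
  intro j hj
  induction j, hj using Nat.le_induction with
  | base =>
    have := Stubs4.HE
    norm_num
    exact this
  | succ j hj ih =>
    have hj' : (1 : ℝ) ≤ j := by exact_mod_cast hj
    have hj0 : (0 : ℝ) < j := by linarith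
    have h1 : (1 : ℝ) < ((j : ℝ) + 1) / j := by
      rw [lt_div_iff₀ hj0]; linarith
    have h2 : ((j : ℝ) + 1) / j ≤ 2 := by
      rw [div_le_iff₀ hj0]; linarith
    have h := Stubs4.HI _ h1 h2 ih
    have e : (2 : ℝ) - 1 / (((j : ℝ) + 1) / j) = (((j + 1 : ℕ) : ℝ) + 1) / ((j + 1 : ℕ) : ℝ) := by
      push_cast
      field_simp
      ring
    rw [e] at h
    exact h

theorem HBLS (ε : ℝ) (hε : 0 < ε) : ∃ C : ℝ, 0 < C ∧ ∀ M N : ℕ, 1 ≤ M → 1 ≤ N →
    LSB M N (C * ((M : ℝ) * N) ^ ε * (M + N)) := by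
  obtain ⟨j, hj⟩ := exists_nat_ge (max 1 (2 / ε))
  have hj1 : (1 : ℝ) ≤ j := le_trans (le_max_left _ _) hj
  have hj2 : 2 / ε ≤ j := le_trans (le_max_right _ _) hj
  have hj0 : (0 : ℝ) < j := by linarith
  have hjn : 1 ≤ j := by exact_mod_cast hj1
  obtain ⟨C, hC, hL⟩ := lsp_all j hjn (ε / 2) (by linarith)
  refine ⟨C, hC, fun M N hM hN a => ?_⟩
  refine le_trans (hL M N hM hN a) ?_
  apply mul_le_mul_of_nonneg_right _ (Finset.sum_nonneg fun _ _ => by positivity)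
  have hM' : (1 : ℝ) ≤ M := by exact_mod_cast hM
  have hN' : (1 : ℝ) ≤ N := by exact_mod_cast hN
  have hMN : (1 : ℝ) ≤ (M : ℝ) * N := by nlinarith
  have hx : (0 : ℝ) < (M : ℝ) * N := by linarith
  have e1 : ((M : ℝ) * N) ^ ε = ((M : ℝ) * N) ^ (ε / 2) * ((M : ℝ) * N) ^ (ε / 2) := by
    rw [← Real.rpow_add hx]; congr 1; ring
  have hone : (1 : ℝ) ≤ ((M : ℝ) * N) ^ (ε / 2) := Real.one_le_rpow hMN (by linarith)
  have hN1 : (N : ℝ) ^ (((j : ℝ) + 1) / j) ≤ N * ((M : ℝ) * N) ^ (ε / 2) := by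
    have : ((j : ℝ) + 1) / j = 1 + 1 / j := by field_simp
    rw [this, Real.rpow_add (by linarith), Real.rpow_one]
    apply mul_le_mul_of_nonneg_left _ (by linarith)
    have h1 : (1 : ℝ) / j ≤ ε / 2 := by
      rw [div_le_iff₀ hj0]
      rw [div_le_iff₀ hε] at hj2
      linarith
    calc (N : ℝ) ^ ((1 : ℝ) / j) ≤ (N : ℝ) ^ (ε / 2) := Real.rpow_le_rpow_of_exponent_le hN' h1
      _ ≤ ((M : ℝ) * N) ^ (ε / 2) := by
        apply Real.rpow_le_rpow (by linarith) _ (by linarith)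
        nlinarith
  have hM1 : (M : ℝ) ≤ M * ((M : ℝ) * N) ^ (ε / 2) := by nlinarith
  calc C * ((M : ℝ) * N) ^ (ε / 2) * (M + (N : ℝ) ^ (((j : ℝ) + 1) / j))
      ≤ C * ((M : ℝ) * N) ^ (ε / 2) * (M * ((M : ℝ) * N) ^ (ε / 2) + N * ((M : ℝ) * N) ^ (ε / 2)) := by
        apply mul_le_mul_of_nonneg_left _ (by positivity)
        linarith
    _ = C * ((M : ℝ) * N) ^ ε * (M + N) := by rw [e1]; ring

end

end Pool.Agent.H621R2.RZ4_HBLS
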